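import Pool.Agent.W5h86.HC.Fib

set_option autoImplicit false

/-!
# Components of hypersurfaces
-/

universe u

namespace Pool.Agent.W5h86.HC

open MvPolynomial

variable {K : Type u} [Field K] {N M : ℕ}

attribute [local instance] MvPolynomial.gradedAlgebra in
lemma isHomIdeal_of_minimal {G : MvPolynomial (Fin N) K} {e : ℕ} (hG : IsHomogeneous G e)
    {Q : Ideal (MvPolynomial (Fin N) K)} (hQ : Q ∈ (Ideal.span {G}).minimalPrimes) :
    IsHomIdeal Q := by
  have hQp : Q.IsPrime := hQ.1.1
  have hGQ : G ∈ Q := hQ.1.2 (Ideal.mem_span_singleton_self G)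
  have h1 : (Q.homogeneousCore (homogeneousSubmodule (Fin N) K)).toIdeal.IsPrime := hQp.homogeneousCore
  have h2 : G ∈ (Q.homogeneousCore (homogeneousSubmodule (Fin N) K)).toIdeal :=
    Ideal.mem_homogeneousCore_of_homogeneous_of_mem ⟨e, hG⟩ hGQ
  have h3 : Q ≤ (Q.homogeneousCore (homogeneousSubmodule (Fin N) K)).toIdeal :=
    hQ.2 ⟨h1, by rw [Ideal.span_singleton_le_iff_mem]; exact h2⟩
      (Ideal.toIdeal_homogeneousCore_le _ _)
  intro f hf i
  exact Ideal.toIdeal_homogeneousCore_le _ _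
    (homogeneousComponent_mem_of_mem (Q.homogeneousCore _).isHomogeneous (h3 hf) i)

/-- Principal prime ideals define hypersurfaces. -/
lemma trdeg_span_prime {g : MvPolynomial (Fin (M + 1)) K} (hg : Prime g) :
    Algebra.trdeg K (MvPolynomial (Fin (M + 1)) K ⧸ Ideal.span {g}) = (M : ℕ) := by
  have hspan : (Ideal.span {g}).IsPrime := (Ideal.span_singleton_prime hg.ne_zero).2 hg
  obtain ⟨k, hk⟩ := exists_trdeg_eq (K := K) (Ideal.span {g})
  have hlt : k < M + 1 := by
    refine trdeg_quot_lt (K := K) (Ideal.isPrime_bot) hspan ?_ trdeg_bot hk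
    refine lt_of_le_of_ne bot_le fun h => ?_
    exact hg.ne_zero (Ideal.span_singleton_eq_bot.1 h.symm)
  -- a variable which occurs in `g`
  obtain ⟨i, hi⟩ : ∃ i, degreeOf i g ≠ 0 := by
    by_contra hcon
    push Not at hcon
    have h1 : g.totalDegree = 0 := by
      rw [totalDegree_eq_zero_iff]
      intro m hm x
      have h2 := le_degreeOf_of_mem_support x hm
      rw [hcon x] at h2
      omega
    rw [totalDegree_eq_zero_iff_eq_C] at h1
    apply hg.not_isUnit
    rw [h1]
    apply IsUnit.map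
    rw [isUnit_iff_ne_zero]
    intro h2
    rw [h2, map_zero] at h1
    exact hg.ne_zero h1
  let f : MvPolynomial (Fin M) K →ₐ[K] MvPolynomial (Fin (M + 1)) K ⧸ Ideal.span {g} :=
    (Ideal.Quotient.mkₐ K _).comp (rename i.succAbove)
  have hf : Function.Injective f := by
    rw [injective_iff_map_eq_zero]
    intro p hp
    by_contra hp0
    have h1 : rename i.succAbove p ∈ Ideal.span {g} := Ideal.Quotient.eq_zero_iff_mem.1 hp
    obtain ⟨q, hq⟩ := Ideal.mem_span_singleton.1 h1
    have h2 : rename i.succAbove p ≠ 0 := by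
      rw [Ne, map_eq_zero_iff _ (rename_injective _ Fin.succAbove_right_injective)]
      exact hp0
    have hq0 : q ≠ 0 := by
      rintro rfl
      rw [mul_zero] at hq
      exact h2 hq
    have h3 : degreeOf i (rename i.succAbove p) = 0 := by
      by_contra h4
      have h5 : i ∈ (rename i.succAbove p).vars := by
        classical
        rw [vars_def, Multiset.mem_toFinset, ← Multiset.count_ne_zero]
        rw [degreeOf_def] at h4
        exact h4
      obtain ⟨j, -, hj⟩ := mem_vars_rename _ _ h5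
      exact Fin.succAbove_ne i j hj
    rw [hq, degreeOf_mul_eq hg.ne_zero hq0] at h3
    omega
  have h6 := trdeg_le_of_injective f hf
  rw [MvPolynomial.trdeg_of_isDomain, hk] at h6
  have h7 : M ≤ k := by
    have h8 : ((M : ℕ) : Cardinal.{u}) ≤ (k : ℕ) := by simpa using h6
    exact_mod_cast h8
  have h8 : k = M := by omega
  rw [hk, h8]

/-- Every subvariety of a hypersurface is contained in a component. -/
lemma exists_component {G : MvPolynomial (Fin (M + 1)) K} {e : ℕ} (hG : IsHomogeneous G e)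
    (hG0 : G ≠ 0) {P : Ideal (MvPolynomial (Fin (M + 1)) K)} (hP : P.IsPrime) (hGP : G ∈ P)
    {l : MvPolynomial (Fin (M + 1)) K} (hl : l ∉ P) :
    ∃ Q, IsSub M l Q ∧ G ∈ Q ∧ Q ≤ P := by
  obtain ⟨Q, hQ, hQP⟩ := Ideal.exists_minimalPrimes_le
    (I := Ideal.span {G}) (J := P) (by rw [Ideal.span_singleton_le_iff_mem]; exact hGP)
  have hQp : Q.IsPrime := hQ.1.1
  have hGQ : G ∈ Q := hQ.1.2 (Ideal.mem_span_singleton_self G)
  obtain ⟨f, hf, hfF⟩ := UniqueFactorizationMonoid.exists_prime_factors G hG0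
  have h1 : f.prod ∈ Q := by
    obtain ⟨v, hv⟩ := hfF
    have h2 : f.prod * v ∈ Q := by
      rw [hv]
      exact hGQ
    refine (hQp.mem_or_mem h2).resolve_right fun h3 => ?_
    exact hQp.ne_top (Ideal.eq_top_of_isUnit_mem _ h3 v.isUnit)
  obtain ⟨g, hg, hgQ⟩ := (hQp.multiset_prod_mem_iff_exists_mem f).1 h1
  have hgp := hf g hg
  have hspan : (Ideal.span {g}).IsPrime := (Ideal.span_singleton_prime hgp.ne_zero).2 hgp
  have hle : Ideal.span {g} ≤ Q := by
    rw [Ideal.span_singleton_le_iff_mem]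
    exact hgQ
  have hQg : Q = Ideal.span {g} := by
    apply le_antisymm (hQ.2 ⟨hspan, ?_⟩ hle) hle
    rw [Ideal.span_singleton_le_span_singleton]
    exact (Multiset.dvd_prod hg).trans hfF.dvd
  refine ⟨Q, ⟨hQp, isHomIdeal_of_minimal hG hQ, ?_, fun h => hl (hQP h)⟩, hGQ, hQP⟩
  rw [hQg]
  exact trdeg_span_prime hgp

end Pool.Agent.W5h86.HC
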