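import Mathlib

set_option autoImplicit false

/-!
# Transcendence degrees of quotients by prime ideals
-/

universe u v w

namespace Pool.Agent.W5h86.HC

open Cardinal

/-- A non-injective surjection of domains lowers the transcendence degree. -/
lemma trdeg_lt_of_surjective {K A B : Type u} [Field K] [CommRing A] [CommRing B] [IsDomain A]
    [IsDomain B] [Algebra K A] [Algebra K B] (f : A →ₐ[K] B) (hf : Function.Surjective f)
    {z : A} (hz : z ≠ 0) (hfz : f z = 0) (hfin : Algebra.trdeg K A < ℵ₀) :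
    Algebra.trdeg K B < Algebra.trdeg K A := by
  by_contra hcon
  rw [not_lt] at hcon
  obtain ⟨s, hs⟩ := exists_isTranscendenceBasis K B
  choose y hy using hf
  have h1 : AlgebraicIndependent K (fun b : s => y b) := by
    apply AlgebraicIndependent.of_comp f
    have h2 : (f ∘ fun b : s => y b) = fun b : s => (b : B) := by
      funext b
      exact hy _
    rw [h2]
    exact hs.1
  have h3 : IsTranscendenceBasis K (fun b : s => y b) := by
    apply h1.isTranscendenceBasis_of_trdeg_le hfin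
    rw [hs.cardinalMk_eq_trdeg]
    exact hcon
  have h4 := h3.isAlgebraic
  have h5 : IsAlgebraic (Algebra.adjoin K (Set.range fun b : s => y b)) z :=
    h4.isAlgebraic z
  have h6 := Ideal.comap_ne_bot_of_algebraic_mem (I := RingHom.ker f) hz hfz h5
  obtain ⟨w, hw, hw0⟩ := Submodule.exists_mem_ne_zero_of_ne_bot h6
  apply hw0
  have h7 : f (w : A) = 0 := hw
  obtain ⟨w, hwm⟩ := w
  rw [Algebra.adjoin_range_eq_range_aeval] at hwm
  obtain ⟨p, hp⟩ := hwm
  have h8 : MvPolynomial.aeval (fun b : s => (b : B)) p = 0 := by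
    have h9 : MvPolynomial.aeval (fun b : s => (b : B)) p =
        f (MvPolynomial.aeval (fun b : s => y b) p) := by
      rw [← AlgHom.comp_apply, MvPolynomial.comp_aeval]
      congr 2
      funext b
      exact (hy _).symm
    rw [h9]
    have h10 : MvPolynomial.aeval (fun b : s => y b) p = w := hp
    rw [h10]
    exact h7
  have h11 : p = 0 := (algebraicIndependent_iff.1 hs.1) p h8
  apply Subtype.ext
  change w = 0
  rw [← hp, h11]
  exact map_zero _

section quot

variable {K R : Type u} [Field K] [CommRing R] [Algebra K R]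

lemma trdeg_quot_lt {P Q : Ideal R} (hP : P.IsPrime) (hQ : Q.IsPrime) (hPQ : P < Q) {n m : ℕ}
    (hn : Algebra.trdeg K (R ⧸ P) = n) (hm : Algebra.trdeg K (R ⧸ Q) = m) : m < n := by
  obtain ⟨z, hzQ, hzP⟩ := Set.exists_of_ssubset hPQ
  have h := trdeg_lt_of_surjective (K := K) (Ideal.Quotient.factorₐ K hPQ.le)
    (Ideal.Quotient.factor_surjective hPQ.le) (z := Ideal.Quotient.mk P z)
    (fun h => hzP (Ideal.Quotient.eq_zero_iff_mem.1 h))
    (Ideal.Quotient.eq_zero_iff_mem.2 hzQ) (by rw [hn]; exact Cardinal.natCast_lt_aleph0)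
  rw [hn, hm] at h
  exact_mod_cast h

lemma eq_of_trdeg_eq {P Q : Ideal R} (hP : P.IsPrime) (hQ : Q.IsPrime) (hPQ : P ≤ Q) {n : ℕ}
    (hn : Algebra.trdeg K (R ⧸ P) = n) (hm : Algebra.trdeg K (R ⧸ Q) = n) : P = Q := by
  by_contra hne
  exact lt_irrefl _ (trdeg_quot_lt hP hQ (lt_of_le_of_ne hPQ hne) hn hm)

/-- Finitely generated algebras have finite transcendence degree. -/
lemma exists_trdeg_eq [Algebra.FiniteType K R] (P : Ideal R) :
    ∃ n : ℕ, Algebra.trdeg K (R ⧸ P) = n := by
  have h : Algebra.trdeg K (R ⧸ P) < ℵ₀ := by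
    have : Algebra.FiniteType K (R ⧸ P) := inferInstance
    exact trdeg_lt_aleph0_of_finiteType
  obtain ⟨n, hn⟩ := Cardinal.lt_aleph0.1 h
  exact ⟨n, hn⟩

/-- A prime ideal of transcendence degree one less than that of `Q` which contains `a ∉ Q` is
minimal over `Q + (a)`. -/
lemma mem_minimalPrimes [Algebra.FiniteType K R] {P Q : Ideal R} (hP : P.IsPrime) (hQ : Q.IsPrime)
    {n : ℕ} (hn : Algebra.trdeg K (R ⧸ P) = n) (hm : Algebra.trdeg K (R ⧸ Q) = (n + 1 : ℕ))
    {I : Ideal R} (hQI : Q ≤ I) {a : R} (ha : a ∉ Q) (haI : a ∈ I) (hIP : I ≤ P) :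
    P ∈ I.minimalPrimes := by
  refine ⟨⟨hP, hIP⟩, fun P' ⟨hP', hIP'⟩ hle => ?_⟩
  obtain ⟨k, hk⟩ := exists_trdeg_eq (K := K) P'
  have h1 : k < n + 1 := trdeg_quot_lt (K := K) hQ hP'
    (lt_of_le_of_ne (hQI.trans hIP') fun h => ha (h ▸ hIP' haI)) hm hk
  by_contra hcon
  have h2 : n < k := trdeg_quot_lt (K := K) hP' hP
    (lt_of_le_of_ne hle fun h => hcon h.symm.le) hk hn
  omega

end quot

/-- Transcendence degrees under a homomorphism which is a localization of a surjection. -/
lemma trdeg_comap {K R S : Type u} [Field K] [CommRing R] [CommRing S] [Algebra K R] [Algebra K S]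
    (φ : R →ₐ[K] S) {P : Ideal S} (hP : P.IsPrime)
    (hφ : ∀ y : S, ∃ s r, φ s ∉ P ∧ φ r = φ s * y) :
    Algebra.trdeg K (R ⧸ P.comap φ) = Algebra.trdeg K (S ⧸ P) := by
  have hP' : (P.comap φ).IsPrime := Ideal.comap_isPrime φ P
  let f : R ⧸ P.comap φ →ₐ[K] S ⧸ P := Ideal.quotientMapₐ P φ le_rfl
  have hf : Function.Injective f := Ideal.quotientMap_injective (f := (φ : R →+* S))
  algebraize [f.toRingHom]
  have hst : IsScalarTower K (R ⧸ P.comap φ) (S ⧸ P) := by
    refine IsScalarTower.of_algebraMap_eq fun x => ?_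
    exact (f.commutes x).symm
  have hfs : FaithfulSMul (R ⧸ P.comap φ) (S ⧸ P) := by
    rw [faithfulSMul_iff_algebraMap_injective]
    exact hf
  have halg : Algebra.IsAlgebraic (R ⧸ P.comap φ) (S ⧸ P) := by
    refine ⟨fun z => ?_⟩
    obtain ⟨y, rfl⟩ := Ideal.Quotient.mk_surjective z
    obtain ⟨s, r, hs, hr⟩ := hφ y
    refine ⟨Polynomial.C (Ideal.Quotient.mk _ s) * Polynomial.X -
      Polynomial.C (Ideal.Quotient.mk _ r), ?_, ?_⟩
    · intro h
      have h1 := congrArg (fun p => Polynomial.coeff p 1) h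
      simp only [Polynomial.coeff_sub, Polynomial.coeff_C_mul, Polynomial.coeff_X_one, mul_one,
        Polynomial.coeff_C_succ, sub_zero, Polynomial.coeff_zero] at h1
      rw [Ideal.Quotient.eq_zero_iff_mem] at h1
      exact hs h1
    · rw [map_sub, map_mul, Polynomial.aeval_C, Polynomial.aeval_C, Polynomial.aeval_X, sub_eq_zero]
      change Ideal.Quotient.mk P (φ s) * Ideal.Quotient.mk P y = Ideal.Quotient.mk P (φ r)
      rw [hr, map_mul]
  have h1 := trdeg_add_eq K (R ⧸ P.comap φ) (A := S ⧸ P)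
  rw [← h1, trdeg_eq_zero (R := R ⧸ P.comap φ) (A := S ⧸ P), add_zero]

end Pool.Agent.W5h86.HC
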