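import Pool.Agent.W5h86.HC.Mult
import Pool.Agent.W5h86.HC.Dim

set_option autoImplicit false

/-!
# Cycles on projective hypersurfaces: definitions
-/

universe u

namespace Pool.Agent.W5h86.HC

open MvPolynomial

variable {K : Type u} [Field K] {N : ℕ}

/-- The ideal `P` of the polynomial ring is homogeneous. -/
def IsHomIdeal (P : Ideal (MvPolynomial (Fin N) K)) : Prop :=
  ∀ f ∈ P, ∀ i, homogeneousComponent i f ∈ P

/-- `P` is a homogeneous prime ideal with `K[x] / P` of transcendence degree `t` over `K`, which
does not contain `l`. For `t ≥ 1` these are the ideals of the closed subvarieties of dimension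
`t - 1` of the projective space with coordinates `x` which are not contained in `l = 0`. -/
structure IsSub (t : ℕ) (l : MvPolynomial (Fin N) K) (P : Ideal (MvPolynomial (Fin N) K)) :
    Prop where
  prime : P.IsPrime
  hom : IsHomIdeal P
  trdeg : Algebra.trdeg K (MvPolynomial (Fin N) K ⧸ P) = t
  notMem : l ∉ P

open scoped Classical in
/-- The intersection cycle, outside of `l = 0`, of the subvariety `Q` with the hypersurface
`G = 0`. -/
noncomputable def idiv (t : ℕ) (l : MvPolynomial (Fin N) K) (Q : Ideal (MvPolynomial (Fin N) K))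
    (G : MvPolynomial (Fin N) K) : Ideal (MvPolynomial (Fin N) K) → ℚ :=
  fun P => if IsSub t l P then (mult (Q ⊔ Ideal.span {G}) P : ℚ) else 0

/-- The cycles of dimension `t - 1` on the complement of `l = 0` in the hypersurface `F = 0` which
are rationally equivalent to zero (for homogeneous `l` of positive degree). -/
noncomputable def Rel (F : MvPolynomial (Fin N) K) (t : ℕ) (l : MvPolynomial (Fin N) K) :
    Submodule ℚ (Ideal (MvPolynomial (Fin N) K) → ℚ) :=
  Submodule.span ℚ {c | ∃ Q G e, IsSub (t + 1) l Q ∧ F ∈ Q ∧ IsHomogeneous G e ∧ G ∉ Q ∧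
    c = idiv t l Q G}

open scoped Classical in
/-- The class of a single subvariety. -/
noncomputable def pt (P : Ideal (MvPolynomial (Fin N) K)) : Ideal (MvPolynomial (Fin N) K) → ℚ :=
  Pi.single P 1

lemma idiv_of {t : ℕ} {l : MvPolynomial (Fin N) K} {Q : Ideal (MvPolynomial (Fin N) K)}
    {G : MvPolynomial (Fin N) K} {P : Ideal (MvPolynomial (Fin N) K)} (h : IsSub t l P) :
    idiv t l Q G P = (mult (Q ⊔ Ideal.span {G}) P : ℚ) := if_pos h

lemma idiv_of_not {t : ℕ} {l : MvPolynomial (Fin N) K} {Q : Ideal (MvPolynomial (Fin N) K)}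
    {G : MvPolynomial (Fin N) K} {P : Ideal (MvPolynomial (Fin N) K)} (h : ¬ IsSub t l P) :
    idiv t l Q G P = 0 := if_neg h

/-- The support of an intersection cycle consists of minimal primes. -/
lemma idiv_support {t : ℕ} {l : MvPolynomial (Fin N) K} {Q : Ideal (MvPolynomial (Fin N) K)}
    {G : MvPolynomial (Fin N) K} {l' : MvPolynomial (Fin N) K} (hQ : IsSub (t + 1) l' Q)
    (hG : G ∉ Q) {P : Ideal (MvPolynomial (Fin N) K)} (h : idiv t l Q G P ≠ 0) :
    IsSub t l P ∧ P ∈ (Q ⊔ Ideal.span {G}).minimalPrimes := by
  by_cases hP : IsSub t l P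
  · refine ⟨hP, ?_⟩
    rw [idiv_of hP] at h
    have hle : Q ⊔ Ideal.span {G} ≤ P := by
      by_contra hcon
      rw [mult_eq_zero hcon] at h
      exact h rfl
    exact mem_minimalPrimes (K := K) hP.prime hQ.prime hP.trdeg hQ.trdeg le_sup_left hG
      (Ideal.mem_sup_right (Ideal.mem_span_singleton_self G)) hle
  · exact absurd (idiv_of_not hP) h

lemma idiv_support_finite {t : ℕ} {l : MvPolynomial (Fin N) K}
    {Q : Ideal (MvPolynomial (Fin N) K)} {G l' : MvPolynomial (Fin N) K} (hQ : IsSub (t + 1) l' Q)
    (hG : G ∉ Q) : (Function.support (idiv t l Q G)).Finite :=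
  (Ideal.finite_minimalPrimes_of_isNoetherianRing _ _).subset
    fun _ hP => (idiv_support hQ hG hP).2

/-- A function with finite support is in a subspace if the classes of all the elements of the
support are. -/
lemma mem_of_support {M : Submodule ℚ (Ideal (MvPolynomial (Fin N) K) → ℚ)}
    {c : Ideal (MvPolynomial (Fin N) K) → ℚ} (hfin : (Function.support c).Finite)
    (h : ∀ P, c P ≠ 0 → pt P ∈ M) : c ∈ M := by
  classical
  have h1 : c = ∑ P ∈ hfin.toFinset, c P • pt P := by
    funext P
    rw [Finset.sum_apply]
    by_cases hP : c P = 0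
    · rw [hP, Finset.sum_eq_zero]
      intro P' hP'
      have h2 : P' ≠ P := by
        rintro rfl
        rw [Set.Finite.mem_toFinset] at hP'
        exact hP' hP
      simp only [pt, Pi.smul_apply, smul_eq_mul]
      rw [Pi.single_eq_of_ne h2.symm, mul_zero]
    · rw [Finset.sum_eq_single P]
      · simp only [pt, Pi.smul_apply, smul_eq_mul, Pi.single_eq_same, mul_one]
      · intro P' _ h2
        simp only [pt, Pi.smul_apply, smul_eq_mul]
        rw [Pi.single_eq_of_ne h2.symm, mul_zero]
      · intro h2
        rw [Set.Finite.mem_toFinset] at h2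
        exact absurd hP h2
  rw [h1]
  refine Submodule.sum_mem _ fun P hP => Submodule.smul_mem _ _ (h P ?_)
  rw [Set.Finite.mem_toFinset] at hP
  exact hP

/-- Homogeneous ideals: divisibility by factors. -/
lemma homogeneousComponent_mul_of_isHomogeneous {f g : MvPolynomial (Fin N) K} {e : ℕ}
    (hf : IsHomogeneous f e) (i : ℕ) :
    homogeneousComponent (e + i) (f * g) = f * homogeneousComponent i g := by
  have h1 : f * g = ∑ j ∈ Finset.range (g.totalDegree + 1), f * homogeneousComponent j g := by
    rw [← Finset.mul_sum, sum_homogeneousComponent]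
  rw [h1, map_sum]
  have h2 : ∀ j, homogeneousComponent (e + i) (f * homogeneousComponent j g) =
      if j = i then f * homogeneousComponent i g else 0 := by
    intro j
    rw [homogeneousComponent_of_mem (hf.mul (homogeneousComponent_isHomogeneous j g))]
    by_cases hj : j = i
    · rw [if_pos hj, if_pos (by rw [hj]), hj]
    · rw [if_neg hj, if_neg (by omega)]
  rw [Finset.sum_congr rfl fun j _ => h2 j, Finset.sum_ite_eq']
  split_ifs with h3
  · rfl
  · rw [homogeneousComponent_eq_zero _ _ (by simpa using h3), mul_zero]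

end Pool.Agent.W5h86.HC
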