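import Pool.Agent.W5h86.HC.Irr

set_option autoImplicit false

/-!
# The fibres of a pencil of hyperplane sections
-/

universe u

namespace Pool.Agent.W5h86.HC

open MvPolynomial

variable {K : Type u} [Field K] {M : ℕ}

/-- homogenization of a polynomial in one variable, as a form in `x 0` and `x 1` -/
noncomputable def hom2 (M D : ℕ) (p : Polynomial K) : MvPolynomial (Fin (M + 2)) K :=
  ∑ k ∈ Finset.range (D + 1), C (p.coeff k) * (X 1 ^ k * X 0 ^ (D - k))

lemma isHomogeneous_hom2 (D : ℕ) (p : Polynomial K) : IsHomogeneous (hom2 M D p) D := by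
  apply IsHomogeneous.sum
  intro k hk
  apply IsHomogeneous.C_mul
  have h1 := ((isHomogeneous_X_pow (R := K) (1 : Fin (M + 2)) k).mul
    (isHomogeneous_X_pow (R := K) (0 : Fin (M + 2)) (D - k)))
  have h2 : k + (D - k) = D := by
    have := Finset.mem_range.1 hk
    omega
  rw [h2] at h1
  exact h1

/-- Evaluation of `hom2`. -/
lemma map_hom2 {A : Type u} [CommRing A] [Algebra K A] (f : MvPolynomial (Fin (M + 2)) K →ₐ[K] A)
    {a b : A} (h0 : f (X 0) = b) (h1 : f (X 1) = a * b) {D : ℕ} {p : Polynomial K}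
    (hp : p.natDegree ≤ D) : f (hom2 M D p) = Polynomial.aeval a p * b ^ D := by
  unfold hom2
  rw [map_sum, Polynomial.aeval_eq_sum_range' (Nat.lt_succ_of_le hp), Finset.sum_mul]
  refine Finset.sum_congr rfl fun k hk => ?_
  have h2 : k ≤ D := Nat.lt_succ_iff.1 (Finset.mem_range.1 hk)
  rw [map_mul, map_mul, map_pow, map_pow, h0, h1, mul_pow, ← algebraMap_eq, AlgHom.commutes,
    Algebra.smul_def]
  have h3 : b ^ D = b ^ k * b ^ (D - k) := by
    rw [← pow_add]
    congr 1
    omega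
  rw [h3]
  ring

section fib

variable {κ : Type u} [Field κ] [Algebra K κ] {θ : κ}

lemma lsub_fibMat_zero : lsub K (fibMat (N := M) θ) (X 0) = X 0 := by
  rw [lsub_X, Finset.sum_eq_single 0]
  · simp
  · intro j _ hj
    simp [hj]
  · simp

lemma lsub_fibMat_one : lsub K (fibMat (N := M) θ) (X 1) = C θ * X 0 := by
  rw [lsub_X, Finset.sum_eq_single 0]
  · simp
  · intro j _ hj
    simp [hj]
  · simp

lemma lsub_fibMat_succ (i : Fin M) :
    lsub K (fibMat (N := M) θ) (X i.succ.succ) = X i.succ := by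
  rw [lsub_X, Finset.sum_eq_single i.succ]
  · simp
  · intro j _ hj
    simp [hj]
  · simp

lemma lsub_fibMat_hom2 {D : ℕ} {p : Polynomial K} (hp : p.natDegree ≤ D) :
    lsub K (fibMat (N := M) θ) (hom2 M D p) = C (Polynomial.aeval θ p) * X 0 ^ D := by
  rw [map_hom2 (lsub K (fibMat (N := M) θ)) lsub_fibMat_zero lsub_fibMat_one hp]
  congr 1
  have h1 : (C θ : MvPolynomial (Fin (M + 1)) κ) = algebraMap κ _ θ := rfl
  rw [h1, Polynomial.aeval_algebraMap_apply]
  rfl

/-- The substitution defining a member of the pencil. -/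
theorem isFib_fibMat (hgen : ∀ a : κ, ∃ p q : Polynomial K, Polynomial.aeval θ q ≠ 0 ∧
    a * Polynomial.aeval θ q = Polynomial.aeval θ p) :
    IsFib (lsub K (fibMat (N := M) θ)) (X 0) where
  graded := homogeneousComponent_lsub _
  den := by
    intro y
    induction y using MvPolynomial.induction_on with
    | C a =>
      obtain ⟨p, q, hq, hpq⟩ := hgen a
      set D := max p.natDegree q.natDegree
      refine ⟨hom2 M D q, hom2 M D p, D, isHomogeneous_hom2 D q, ?_, ?_⟩
      · rw [lsub_fibMat_hom2 (le_max_left _ _), lsub_fibMat_hom2 (le_max_right _ _), ← hpq,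
          map_mul]
        ring
      · intro P hP h0 h1
        rw [lsub_fibMat_zero] at h0
        rw [lsub_fibMat_hom2 (le_max_right _ _)] at h1
        rcases hP.mem_or_mem h1 with h2 | h2
        · have h3 : IsUnit (C (Polynomial.aeval θ q) : MvPolynomial (Fin (M + 1)) κ) :=
            (isUnit_iff_ne_zero.2 hq).map C
          exact hP.ne_top (Ideal.eq_top_of_isUnit_mem _ h2 h3)
        · exact h0 (hP.mem_of_pow_mem _ h2)
    | add y₁ y₂ h₁ h₂ =>
      obtain ⟨s₁, r₁, e₁, hs₁, hr₁, hP₁⟩ := h₁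
      obtain ⟨s₂, r₂, e₂, hs₂, hr₂, hP₂⟩ := h₂
      refine ⟨s₁ * s₂, r₁ * s₂ + r₂ * s₁, e₁ + e₂, hs₁.mul hs₂, ?_, ?_⟩
      · rw [map_add, map_mul, map_mul, map_mul, hr₁, hr₂]
        ring
      · intro P hP h0 h1
        rw [map_mul] at h1
        exact (hP.mem_or_mem h1).elim (hP₁ P hP h0) (hP₂ P hP h0)
    | mul_X y j h =>
      obtain ⟨s, r, e, hs, hr, hP⟩ := h
      obtain ⟨x, hx⟩ : ∃ x, lsub K (fibMat (N := M) θ) x = X j := by
        rcases Fin.eq_zero_or_eq_succ j with h | ⟨i, h⟩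
        · exact ⟨X 0, by rw [h, lsub_fibMat_zero]⟩
        · exact ⟨X i.succ.succ, by rw [h, lsub_fibMat_succ]⟩
      refine ⟨s, r * x, e, hs, ?_, hP⟩
      rw [map_mul, hr, hx, mul_assoc]

end fib

/-! ### The value of the pencil at a subvariety -/

/-- The function field of the cone over a subvariety. -/
abbrev FF {N : ℕ} (P : Ideal (MvPolynomial (Fin N) K)) : Type u :=
  FractionRing (MvPolynomial (Fin N) K ⧸ P)

section value

variable {t : ℕ} {P : Ideal (MvPolynomial (Fin (M + 2)) K)} (h : IsSub t (X 0) P)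

/-- The residue class homomorphism. -/
noncomputable def cls {N : ℕ} (P : Ideal (MvPolynomial (Fin N) K)) [P.IsPrime] :
    MvPolynomial (Fin N) K →ₐ[K] FF P :=
  (IsScalarTower.toAlgHom K (MvPolynomial (Fin N) K ⧸ P) (FF P)).comp (Ideal.Quotient.mkₐ K P)

lemma cls_eq_zero {N : ℕ} {P : Ideal (MvPolynomial (Fin N) K)} [P.IsPrime]
    (f : MvPolynomial (Fin N) K) : cls P f = 0 ↔ f ∈ P := by
  change algebraMap _ (FF P) (Ideal.Quotient.mk P f) = 0 ↔ _
  rw [map_eq_zero_iff _ (IsFractionRing.injective _ (FF P)), Ideal.Quotient.eq_zero_iff_mem]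

/-- The value of `x 1 / x 0` at the generic point. -/
noncomputable def val (P : Ideal (MvPolynomial (Fin (M + 2)) K)) [P.IsPrime] : FF P :=
  cls P (X 1) / cls P (X 0)

variable {κ : Type u} [Field κ] [Algebra K κ] {θ : κ}

include h in
/-- The prime ideals of `κ[y]` over a prime ideal of `K[x]`. -/
theorem exists_over [P.IsPrime] (hgen : ∀ a : κ, ∃ p q : Polynomial K,
      Polynomial.aeval θ q ≠ 0 ∧ a * Polynomial.aeval θ q = Polynomial.aeval θ p)
    {δ : ℕ} (hδ : Algebra.trdeg K κ = δ) (ι : κ →ₐ[K] FF P) (hι : ι θ = val P) :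
    ∃ t' P', t = t' + δ ∧ IsSub t' (lsub K (fibMat (N := M) θ) (X 0)) P' ∧
      P'.comap (lsub K (fibMat (N := M) θ)) = P := by
  have h0 : cls P (X 0) ≠ 0 := fun h1 => h.notMem ((cls_eq_zero _).1 h1)
  let ψ : MvPolynomial (Fin (M + 1)) κ →+* FF P :=
    eval₂Hom (ι : κ →+* FF P)
      (Fin.cases (cls P (X 0)) fun i => cls P (X i.succ.succ))
  have hψC : ∀ a, ψ (C a) = ι a := fun a => eval₂Hom_C _ _ _
  have hψ0 : ψ (X 0) = cls P (X 0) := eval₂Hom_X' _ _ _
  have hψs : ∀ i : Fin M, ψ (X i.succ) = cls P (X i.succ.succ) := fun i => eval₂Hom_X' _ _ _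
  have hψ : ∀ f, ψ (lsub K (fibMat (N := M) θ) f) = cls P f := by
    intro f
    let ψ' : MvPolynomial (Fin (M + 1)) κ →ₐ[K] FF P := { ψ with
      commutes' := fun a => by
        change ψ (C (algebraMap K κ a)) = _
        rw [hψC, AlgHom.commutes] }
    have h1 : ψ'.comp (lsub K (fibMat (N := M) θ)) = cls P := by
      apply MvPolynomial.algHom_ext
      intro i
      rw [AlgHom.comp_apply]
      change ψ _ = _
      rcases fin_cases_two i with hi | hi | ⟨i', hi⟩
      · rw [hi, lsub_fibMat_zero, hψ0]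
      · rw [hi, lsub_fibMat_one, map_mul, hψC, hψ0, hι, val, div_mul_cancel₀ _ h0]
      · rw [hi, lsub_fibMat_succ, hψs]
    exact DFunLike.congr_fun h1 f
  obtain ⟨t', h1, h2, h3⟩ := (isFib_fibMat (M := M) hgen).exists_isSub hδ h ψ
    (fun f => by rw [hψ, cls_eq_zero])
  exact ⟨t', _, h1, h2, h3⟩

end value

/-! ### The generic member -/

/-- the field `K(t)` -/
abbrev Kt (K : Type u) [Field K] : Type u := FractionRing (Polynomial K)

/-- the element `t` of `K(t)` -/
noncomputable def tt (K : Type u) [Field K] : Kt K :=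
  algebraMap (Polynomial K) (Kt K) Polynomial.X

lemma aeval_tt (p : Polynomial K) : Polynomial.aeval (tt K) p = algebraMap _ (Kt K) p := by
  unfold tt
  rw [Polynomial.aeval_algebraMap_apply, Polynomial.aeval_X_left, AlgHom.id_apply]

lemma transcendental_tt : Transcendental K (tt K) := by
  unfold tt
  rw [transcendental_algebraMap_iff (IsFractionRing.injective (Polynomial K) (Kt K))]
  exact Polynomial.transcendental_X K

lemma trdeg_Kt : Algebra.trdeg K (Kt K) = (1 : ℕ) := by
  have h1 := trdeg_add_eq K (Polynomial K) (A := Kt K)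
  have h2 : Algebra.IsAlgebraic (Polynomial K) (Kt K) :=
    IsLocalization.isAlgebraic (Kt K) (nonZeroDivisors (Polynomial K))
  rw [Polynomial.trdeg_of_isDomain, trdeg_eq_zero (R := Polynomial K) (A := Kt K), add_zero] at h1
  rw [← h1]
  simp

lemma hgen_Kt (a : Kt K) : ∃ p q : Polynomial K, Polynomial.aeval (tt K) q ≠ 0 ∧
    a * Polynomial.aeval (tt K) q = Polynomial.aeval (tt K) p := by
  obtain ⟨p, q, hq, rfl⟩ := IsFractionRing.div_surjective (A := Polynomial K) a
  have hq0 : algebraMap (Polynomial K) (Kt K) q ≠ 0 := by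
    rw [Ne, map_eq_zero_iff _ (IsFractionRing.injective (Polynomial K) (Kt K))]
    exact nonZeroDivisors.ne_zero hq
  refine ⟨p, q, ?_, ?_⟩
  · rw [aeval_tt]
    exact hq0
  · rw [aeval_tt, aeval_tt, div_mul_cancel₀ _ hq0]

/-- The generic member. -/
theorem exists_over_generic {t : ℕ} {P : Ideal (MvPolynomial (Fin (M + 2)) K)}
    (h : IsSub t (X 0) P) [P.IsPrime] (hval : Transcendental K (val P)) :
    ∃ t' P', t = t' + 1 ∧ IsSub t' (lsub K (fibMat (N := M) (tt K)) (X 0)) P' ∧
      P'.comap (lsub K (fibMat (N := M) (tt K))) = P := by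
  have hinj : Function.Injective (Polynomial.aeval (R := K) (val P)) :=
    transcendental_iff_injective.1 hval
  refine exists_over h hgen_Kt trdeg_Kt (IsFractionRing.liftAlgHom (K := Kt K) hinj) ?_
  unfold tt
  rw [IsFractionRing.liftAlgHom_apply, IsFractionRing.lift_algebraMap]
  exact Polynomial.aeval_X _

/-! ### The closed members -/

section closed

variable (π : Polynomial K) [hπ : Fact (Irreducible π)]

lemma trdeg_adjoinRoot : Algebra.trdeg K (AdjoinRoot π) = (0 : ℕ) := by
  have h1 : Module.Finite K (AdjoinRoot π) :=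
    (AdjoinRoot.powerBasis hπ.out.ne_zero).finite
  have h2 : Algebra.IsAlgebraic K (AdjoinRoot π) := inferInstance
  rw [trdeg_eq_zero]
  simp

lemma hgen_adjoinRoot (a : AdjoinRoot π) : ∃ p q : Polynomial K,
    Polynomial.aeval (AdjoinRoot.root π) q ≠ 0 ∧
      a * Polynomial.aeval (AdjoinRoot.root π) q = Polynomial.aeval (AdjoinRoot.root π) p := by
  obtain ⟨p, rfl⟩ := AdjoinRoot.mk_surjective a
  refine ⟨p, 1, ?_, ?_⟩
  · rw [map_one]
    exact one_ne_zero
  · rw [map_one, mul_one, AdjoinRoot.aeval_eq]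

/-- The closed members. -/
theorem exists_over_closed {t : ℕ} {P : Ideal (MvPolynomial (Fin (M + 2)) K)}
    (h : IsSub t (X 0) P) [P.IsPrime] (hval : Polynomial.aeval (val P) π = 0) :
    ∃ P', IsSub t (lsub K (fibMat (N := M) (AdjoinRoot.root π)) (X 0)) P' ∧
      P'.comap (lsub K (fibMat (N := M) (AdjoinRoot.root π))) = P := by
  obtain ⟨t', P', h1, h2, h3⟩ := exists_over h (hgen_adjoinRoot π) (trdeg_adjoinRoot π)
    (AdjoinRoot.liftAlgHom π (Algebra.ofId K (FF P)) (val P) (by
      rw [← hval]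
      rfl)) (AdjoinRoot.liftAlgHom_root _ _ _ _)
  rw [add_zero] at h1
  subst h1
  exact ⟨P', h2, h3⟩

end closed

lemma hom2_mem_iff {t : ℕ} {P : Ideal (MvPolynomial (Fin (M + 2)) K)}
    (h : IsSub t (X 0) P) [P.IsPrime] (p : Polynomial K) :
    hom2 M p.natDegree p ∈ P ↔ Polynomial.aeval (val P) p = 0 := by
  have h0 : cls P (X 0) ≠ 0 := fun h1 => h.notMem ((cls_eq_zero _).1 h1)
  rw [← cls_eq_zero, map_hom2 (cls P) rfl (a := val P) (by
    rw [val, div_mul_cancel₀ _ h0]) le_rfl]
  constructor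
  · intro h1
    exact (mul_eq_zero.1 h1).resolve_right (pow_ne_zero _ h0)
  · intro h1
    rw [h1, zero_mul]

end Pool.Agent.W5h86.HC
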