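import Pool.Agent.W5h86.HC.Proj

set_option autoImplicit false

/-!
# Restriction to a hyperplane, and the induction on the codimension
-/

universe u

namespace Pool.Agent.W5h86.HC

open MvPolynomial

section hyperplane

variable {K : Type u} [Field K] {M : ℕ}

/-- A parametrization of a hyperplane. -/
lemma exists_param {r : Fin (M + 1) → K} (hr : r ≠ 0) :
    ∃ (B : Matrix (Fin (M + 1)) (Fin M) K) (B' : Matrix (Fin M) (Fin (M + 1)) K)
      (q : Fin (M + 1) → K), B' * B = 1 ∧ B * B' = 1 - Matrix.vecMulVec q r ∧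
      Matrix.vecMul r B = 0 := by
  obtain ⟨hk, g, g', hg, hg', hg0⟩ := exists_coord (fun _ : Fin 1 => r)
    (by rw [linearIndependent_unique_iff]; exact hr)
  have hr0 : g' 0 = r := hg0 0
  have h1 : (hinv : Matrix (Fin M) (Fin (M + 1)) K) * (zin : Matrix (Fin (M + 1)) (Fin M) K) = 1 :=
    hinv_mul_hyp 0
  have h2 : (zin : Matrix (Fin (M + 1)) (Fin M) K) * (hinv : Matrix (Fin M) (Fin (M + 1)) K) =
      1 - Matrix.vecMulVec (Pi.single 0 1) (Pi.single 0 1) := by
    ext i j
    rw [Matrix.mul_apply, Matrix.sub_apply, Matrix.vecMulVec_apply]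
    rcases Fin.eq_zero_or_eq_succ i with h | ⟨i', h⟩
    · rw [h, Finset.sum_eq_zero]
      · rw [Pi.single_eq_same, one_mul, Matrix.one_apply, Pi.single_apply]
        simp only [eq_comm]
        simp
      · intro k _
        simp [zin]
    · rw [h, Finset.sum_eq_single i']
      · simp only [zin, hinv, hyp_succ, if_true, one_mul, Matrix.one_apply]
        rw [Pi.single_eq_of_ne (Fin.succ_ne_zero i'), zero_mul, sub_zero]
        simp only [eq_comm]
      · intro k _ hk
        simp [zin]
        intro h3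
        exact absurd h3.symm hk
      · simp
  refine ⟨g * (zin : Matrix (Fin (M + 1)) (Fin M) K),
    (hinv : Matrix (Fin M) (Fin (M + 1)) K) * g', g.mulVec (Pi.single 0 1), ?_, ?_, ?_⟩
  · rw [Matrix.mul_assoc, ← Matrix.mul_assoc g', hg', Matrix.one_mul, h1]
  · have h3 : g * (zin : Matrix (Fin (M + 1)) (Fin M) K) *
        ((hinv : Matrix (Fin M) (Fin (M + 1)) K) * g') =
        g * ((zin : Matrix (Fin (M + 1)) (Fin M) K) *
          (hinv : Matrix (Fin M) (Fin (M + 1)) K)) * g' := by
      simp only [Matrix.mul_assoc]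
    rw [h3, h2, Matrix.mul_sub, Matrix.sub_mul, Matrix.mul_one, hg, Matrix.mul_vecMulVec,
      Matrix.vecMulVec_mul]
    congr 2
    rw [Matrix.single_one_vecMul]
    exact hr0
  · rw [← Matrix.vecMul_vecMul]
    have h3 : Matrix.vecMul r g = Pi.single 0 1 := by
      have h4 : Matrix.vecMul (g' 0) g = (g' * g) 0 := rfl
      rw [← hr0, h4, hg']
      funext j
      rw [Matrix.one_apply, Pi.single_apply]
      simp only [eq_comm]
    rw [h3, Matrix.single_one_vecMul]
    funext j
    simp [zin]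

variable {r : Fin (M + 1) → K} {B : Matrix (Fin (M + 1)) (Fin M) K}
  {B' : Matrix (Fin M) (Fin (M + 1)) K} {q : Fin (M + 1) → K}

lemma lsub_param_lform (h : Matrix.vecMul r B = 0) : lsub K B (lform r) = 0 := by
  rw [lsub_lform]
  have h1 : (fun j => ∑ i, algebraMap K K (r i) * B i j) = Matrix.vecMul r B := rfl
  rw [h1, h]
  simp [lform]

lemma lsub_param_inv (h : B' * B = 1) (y : MvPolynomial (Fin M) K) :
    lsub K B (lsub K B' y) = y := by
  rw [lsub_lsub, h, lsub_one]
  rfl

lemma lsub_param_sub_mem (h : B * B' = 1 - Matrix.vecMulVec q r)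
    (f : MvPolynomial (Fin (M + 1)) K) :
    f - lsub K B' (lsub K B f) ∈ Ideal.span {lform r} := by
  rw [lsub_lsub, h, ← Ideal.Quotient.eq_zero_iff_mem, map_sub, sub_eq_zero]
  have h1 : (Ideal.Quotient.mkₐ K (Ideal.span {lform r})).comp
      (lsub K (1 - Matrix.vecMulVec q r)) = Ideal.Quotient.mkₐ K (Ideal.span {lform r}) := by
    apply MvPolynomial.algHom_ext
    intro i
    rw [AlgHom.comp_apply, lsub_X]
    have h2 : ∑ j, C ((1 - Matrix.vecMulVec q r) i j) * X j = X i - C (q i) * lform r := by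
      unfold lform
      simp only [Matrix.sub_apply, map_sub, sub_mul, Finset.sum_sub_distrib, Finset.mul_sum,
        Matrix.vecMulVec_apply, map_mul]
      congr 1
      · rw [Finset.sum_eq_single i]
        · rw [Matrix.one_apply_eq, map_one, one_mul]
        · intro j _ hj
          rw [Matrix.one_apply_ne hj.symm, map_zero, zero_mul]
        · simp
      · refine Finset.sum_congr rfl fun j _ => ?_
        ring
    rw [h2, map_sub, sub_eq_self]
    refine Ideal.Quotient.eq_zero_iff_mem.2 ?_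
    exact Ideal.mul_mem_left _ _ (Ideal.mem_span_singleton_self _)
  exact (DFunLike.congr_fun h1 f).symm

lemma lsub_param_eq_zero (h : B * B' = 1 - Matrix.vecMulVec q r)
    {f : MvPolynomial (Fin (M + 1)) K} (hf : lsub K B f = 0) : f ∈ Ideal.span {lform r} := by
  have h1 := lsub_param_sub_mem h f
  rw [hf, map_zero, sub_zero] at h1
  exact h1

lemma isFib_param (h : B' * B = 1) : IsFib (lsub K B) (1 : MvPolynomial (Fin (M + 1)) K) where
  graded := homogeneousComponent_lsub _
  den := by
    intro y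
    refine ⟨1, lsub K B' y, 0, isHomogeneous_one _ _, ?_, ?_⟩
    · rw [lsub_param_inv h, map_one, one_mul]
    · intro P hP _ h1
      rw [map_one] at h1
      exact hP.ne_top ((Ideal.eq_top_iff_one _).2 h1)

/-- The subvarieties of the hyperplane. -/
lemma exists_isSub_param (h1 : B' * B = 1) (h2 : B * B' = 1 - Matrix.vecMulVec q r) {t : ℕ}
    {P : Ideal (MvPolynomial (Fin (M + 1)) K)} (hP : IsSub t 1 P) (hr : lform r ∈ P) :
    ∃ P', IsSub t 1 P' ∧ P'.comap (lsub K B) = P := by
  have hprime := hP.prime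
  obtain ⟨t', h3, h4, h5⟩ := (isFib_param (K := K) h1).exists_isSub (trdeg_self_eq) hP
    ((cls P : MvPolynomial (Fin (M + 1)) K →+* FF P).comp
      (lsub K B' : MvPolynomial (Fin M) K →+* MvPolynomial (Fin (M + 1)) K)) (by
      intro f
      change cls P (lsub K B' (lsub K B f)) = 0 ↔ _
      rw [cls_eq_zero]
      have h6 : f - lsub K B' (lsub K B f) ∈ P := by
        have h7 := lsub_param_sub_mem h2 f
        have h8 : Ideal.span {lform r} ≤ P := by
          rw [Ideal.span_singleton_le_iff_mem]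
          exact hr
        exact h8 h7
      constructor
      · intro h7
        have h8 := P.add_mem h6 h7
        rw [sub_add_cancel] at h8
        exact h8
      · intro h7
        have h8 := P.sub_mem h7 h6
        rw [sub_sub_cancel] at h8
        exact h8)
  rw [add_zero] at h3
  subst h3
  rw [map_one] at h4
  exact ⟨_, h4, h5⟩

lemma isSub_comap_param (h1 : B' * B = 1) {t : ℕ} {P' : Ideal (MvPolynomial (Fin M) K)}
    (hP : IsSub t 1 P') : IsSub t 1 (P'.comap (lsub K B)) := by
  have h3 := (isFib_param (K := K) h1).isSub_comap (t := t) (trdeg_self_eq) (P' := P')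
    (by rw [map_one]; exact hP)
  exact h3

/-- Push-forward of intersection cycles from the hyperplane. -/
lemma push_idiv_param (h1 : B' * B = 1) (h2 : B * B' = 1 - Matrix.vecMulVec q r)
    (h3 : Matrix.vecMul r B = 0) {t : ℕ} {Q' : Ideal (MvPolynomial (Fin M) K)}
    {G' : MvPolynomial (Fin M) K} :
    push (lsub K B) 1 t (idiv t 1 Q' G') = idiv t 1 (Q'.comap (lsub K B)) (lsub K B' G') := by
  have hfib := isFib_param (K := K) h1
  funext P
  by_cases hP : ∃ P', IsSub t (lsub K B 1) P' ∧ P'.comap (lsub K B) = P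
  · obtain ⟨P', hP', rfl⟩ := hP
    have hP1 : IsSub t 1 P' := by
      rw [map_one] at hP'
      exact hP'
    rw [push_of hfib _ hP', idiv_of hP1, idiv_of (isSub_comap_param h1 hP1)]
    rw [hfib.mult_eq hP'.prime hP'.notMem (s := 1) (y := G') ?_ ?_]
    · exact hP'.notMem
    · rw [lsub_param_inv h1, map_one, one_mul]
  · rw [push_of_not _ hP]
    by_contra h4
    obtain ⟨h5, h6, -⟩ := le_of_idiv_ne_zero (Ne.symm h4)
    have h7 : lform r ∈ P := h6 (by
      rw [Ideal.mem_comap, lsub_param_lform h3]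
      exact Q'.zero_mem)
    obtain ⟨P', hP', hPP'⟩ := exists_isSub_param h1 h2 h5 h7
    exact hP ⟨P', by rw [map_one]; exact hP', hPP'⟩

lemma push_ratEq_param (h1 : B' * B = 1) (h2 : B * B' = 1 - Matrix.vecMulVec q r)
    (h3 : Matrix.vecMul r B = 0) {t : ℕ} {F : MvPolynomial (Fin (M + 1)) K} :
    (RatEq (lsub K B F) t).map (push (lsub K B) 1 t) ≤ RatEq F t := by
  unfold RatEq
  rw [Submodule.map_span_le]
  rintro c ⟨Q', G₁, G₂, e, hQ, hFQ, hG₁, hG₂, hGQ₁, hGQ₂, rfl⟩
  rw [map_sub, push_idiv_param h1 h2 h3, push_idiv_param h1 h2 h3]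
  refine Submodule.subset_span ⟨_, _, _, e, isSub_comap_param h1 hQ, hFQ,
    isHomogeneous_lsub B' hG₁, isHomogeneous_lsub B' hG₂, ?_, ?_, rfl⟩
  · rw [Ideal.mem_comap, lsub_param_inv h1]
    exact hGQ₁
  · rw [Ideal.mem_comap, lsub_param_inv h1]
    exact hGQ₂

end hyperplane

section section'

variable {K : Type u} [Field K] {M i : ℕ} {ℓ : Fin (i + 1) → Fin (M + 1) → K}
  {B : Matrix (Fin (M + 1)) (Fin M) K} {B' : Matrix (Fin M) (Fin (M + 1)) K}
  {q : Fin (M + 1) → K}

/-- the restrictions of the linear forms to the hyperplane -/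
lemma span_comap (h1 : B' * B = 1) (h2 : B * B' = 1 - Matrix.vecMulVec q (ℓ 0))
    (h3 : Matrix.vecMul (ℓ 0) B = 0) (J : Ideal (MvPolynomial (Fin (M + 1)) K)) :
    (J.map (lsub K B) ⊔
      Ideal.span (Set.range fun k : Fin i => lform (Matrix.vecMul (ℓ k.succ) B))).comap
        (lsub K B) = J ⊔ Ideal.span (Set.range fun k => lform (ℓ k)) := by
  have hsurj : Function.Surjective (lsub K B) :=
    fun y => ⟨lsub K B' y, lsub_param_inv h1 y⟩
  have h4 : ∀ k : Fin i, lsub K B (lform (ℓ k.succ)) = lform (Matrix.vecMul (ℓ k.succ) B) := by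
    intro k
    rw [lsub_lform]
    rfl
  have h5 : J.map (lsub K B) ⊔
      Ideal.span (Set.range fun k : Fin i => lform (Matrix.vecMul (ℓ k.succ) B)) =
      (J ⊔ Ideal.span (Set.range fun k => lform (ℓ k))).map (lsub K B) := by
    rw [Ideal.map_sup, Ideal.map_span]
    congr 1
    apply le_antisymm
    · rw [Ideal.span_le]
      rintro _ ⟨k, rfl⟩
      rw [SetLike.mem_coe]
      apply Ideal.subset_span
      exact ⟨lform (ℓ k.succ), ⟨k.succ, rfl⟩, h4 k⟩
    · rw [Ideal.span_le]
      rintro _ ⟨_, ⟨k, rfl⟩, rfl⟩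
      rw [SetLike.mem_coe]
      rcases Fin.eq_zero_or_eq_succ k with h | ⟨k', h⟩
      · change lsub K B (lform (ℓ k)) ∈ _
        rw [h, lsub_param_lform h3]
        exact Ideal.zero_mem _
      · change lsub K B (lform (ℓ k)) ∈ _
        rw [h, h4]
        exact Ideal.subset_span ⟨k', rfl⟩
  rw [h5]
  apply le_antisymm
  · intro f hf
    rw [Ideal.comap_map_of_surjective (lsub K B) hsurj] at hf
    obtain ⟨a, ha, b, hb, rfl⟩ := Submodule.mem_sup.1 hf
    refine Ideal.add_mem _ ha (Ideal.mem_sup_right ?_)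
    have hb' : lsub K B b = 0 := hb
    have hb2 := lsub_param_eq_zero h2 hb'
    have hle : Ideal.span {lform (ℓ 0)} ≤ Ideal.span (Set.range fun k => lform (ℓ k)) := by
      rw [Ideal.span_singleton_le_iff_mem]
      exact Ideal.subset_span ⟨0, rfl⟩
    exact hle hb2
  · exact Ideal.le_comap_map

lemma li_param (h2 : B * B' = 1 - Matrix.vecMulVec q (ℓ 0)) (hℓ : LinearIndependent K ℓ) :
    LinearIndependent K fun k : Fin i => Matrix.vecMul (ℓ k.succ) B := by
  rw [Fintype.linearIndependent_iff] at hℓ ⊢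
  intro c hc k
  set u : Fin (M + 1) → K := ∑ k : Fin i, c k • ℓ k.succ with hu
  have h4 : Matrix.vecMul u B = 0 := by
    rw [hu, Matrix.sum_vecMul, ← hc]
    refine Finset.sum_congr rfl fun k _ => ?_
    rw [Matrix.smul_vecMul]
  have h5 : Matrix.vecMul u (B * B') = 0 := by
    rw [← Matrix.vecMul_vecMul, h4, Matrix.zero_vecMul]
  rw [h2, Matrix.vecMul_sub, Matrix.vecMul_one, Matrix.vecMul_vecMulVec, sub_eq_zero] at h5
  have h6 := hℓ (Fin.cons (-(u ⬝ᵥ q)) c) (by
    rw [Fin.sum_univ_succ]
    simp only [Fin.cons_zero, Fin.cons_succ]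
    rw [← hu]
    nth_rw 2 [h5]
    rw [← add_smul, neg_add_cancel, zero_smul]) k.succ
  rw [Fin.cons_succ] at h6
  exact h6

/-- Push-forward of the class of the linear section. -/
lemma push_sect_param (h1 : B' * B = 1) (h2 : B * B' = 1 - Matrix.vecMulVec q (ℓ 0))
    (h3 : Matrix.vecMul (ℓ 0) B = 0) {t : ℕ} {F : MvPolynomial (Fin (M + 1)) K} :
    push (lsub K B) 1 t (sect t (lsub K B F) fun k : Fin i => Matrix.vecMul (ℓ k.succ) B) =
      sect t F ℓ := by
  have hfib := isFib_param (K := K) h1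
  funext P
  by_cases hP : ∃ P', IsSub t (lsub K B 1) P' ∧ P'.comap (lsub K B) = P
  · obtain ⟨P', hP', rfl⟩ := hP
    have hP1 : IsSub t 1 P' := by
      rw [map_one] at hP'
      exact hP'
    rw [push_of hfib _ hP', sect_of hP1, sect_of (isSub_comap_param h1 hP1)]
    congr 1
    rw [← span_comap h1 h2 h3, Ideal.map_span, Set.image_singleton]
    exact (mult_comap (lsub K B : MvPolynomial (Fin (M + 1)) K →+* MvPolynomial (Fin M) K)
      hP'.prime (hfib.den' hP'.prime hP'.notMem) _).symm
  · rw [push_of_not _ hP]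
    by_contra h4
    obtain ⟨h5, -, h6⟩ := le_of_sect_ne_zero (Ne.symm h4)
    obtain ⟨P', hP', hPP'⟩ := exists_isSub_param h1 h2 h5 (h6 0)
    exact hP ⟨P', by rw [map_one]; exact hP', hPP'⟩

end section'

/-! ### The induction -/

/-- The class of an irreducible hypersurface. -/
lemma linSpan_zero {K : Type u} [Field K] {N : ℕ} {F : MvPolynomial (Fin N) K}
    (hsec : HasSec 3 F) : LinSpan 0 F := by
  intro ℓ _ _ t ht P hP hFP
  subst ht
  apply Submodule.mem_sup_left
  have hF0 : F ≠ 0 := ne_zero_of_hasSec hsec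
  set c : ℚ := (mult (Ideal.span {F} ⊔ Ideal.span (Set.range fun k => lform (ℓ k))) P : ℚ) with hc
  have hc0 : c ≠ 0 := by
    rw [hc, Nat.cast_ne_zero]
    apply mult_ne_zero
    refine mem_minimalPrimes (K := K) (Q := ⊥) hP.prime Ideal.isPrime_bot hP.trdeg trdeg_bot bot_le
      (a := F) hF0 (Ideal.mem_sup_left (Ideal.mem_span_singleton_self _)) ?_
    refine sup_le ?_ ?_
    · rw [Ideal.span_singleton_le_iff_mem]
      exact hFP
    · rw [Set.range_eq_empty, Ideal.span_empty]
      exact bot_le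
  have h1 : sect t F ℓ = c • pt P := by
    classical
    funext P'
    rw [Pi.smul_apply, smul_eq_mul]
    unfold pt
    by_cases h : P' = P
    · rw [h, sect_of hP, Pi.single_eq_same, mul_one]
    · rw [Pi.single_eq_of_ne h, mul_zero]
      by_contra h2
      obtain ⟨h3, h4, -⟩ := le_of_sect_ne_zero h2
      exact h (component_unique hsec h3 hP h4 hFP)
  rw [h1]
  refine Submodule.mem_span_singleton.2 ⟨c⁻¹, ?_⟩
  rw [smul_smul, inv_mul_cancel₀ hc0, one_smul]

theorem linSpan_of_affine {d i₀ : ℕ}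
    (haff : ∀ N j, 1 ≤ j → j ≤ i₀ → AffineStatement.{u} (d + 2) j N) :
    ∀ i, i ≤ i₀ → ∀ N (K : Type u) [Field K] [CharZero K] (F : MvPolynomial (Fin N) K),
      IsHomogeneous F (d + 2) → HasSec (2 * i + 3) F → LinSpan i F := by
  intro i
  induction i with
  | zero =>
    intro _ N K _ _ F _ hsec
    exact linSpan_zero hsec
  | succ i ih =>
    intro hi N K _ _ F hF hsec ℓ hℓ hFℓ t ht P hP hFP
    obtain ⟨M, rfl⟩ : ∃ M, N = M + 1 := ⟨N - 1, by omega⟩
    have hr : ℓ 0 ≠ 0 := hℓ.ne_zero 0
    -- the subvarieties of the hyperplane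
    have key : ∀ P, IsSub t 1 P → F ∈ P → lform (ℓ 0) ∈ P →
        pt P ∈ Submodule.span ℚ {sect t F ℓ} ⊔ RatEq F t := by
      intro P hP hFP hlP
      obtain ⟨B, B', q, h1, h2, h3⟩ := exists_param hr
      obtain ⟨P', hP', hPP'⟩ := exists_isSub_param h1 h2 hP hlP
      have hsec' : HasSec (2 * i + 3) (lsub K B F) := by
        have h4 : 2 * (i + 1) + 3 = (2 * i + 3) + 2 := by ring
        rw [h4] at hsec
        refine hsec.hyperplane hF B (ℓ 0) ?_
        intro w hw
        refine ⟨B'.mulVec w, ?_⟩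
        rw [Matrix.mulVec_mulVec, h2, Matrix.sub_mulVec, Matrix.one_mulVec,
          Matrix.vecMulVec_mulVec]
        have h5 : ℓ 0 ⬝ᵥ w = 0 := hw
        rw [h5]
        simp
      have hFℓ' : lsub K B F ∉ Ideal.span
          (Set.range fun k : Fin i => lform (Matrix.vecMul (ℓ k.succ) B)) := by
        intro h4
        apply hFℓ
        have h5 := span_comap h1 h2 h3 (⊥ : Ideal (MvPolynomial (Fin (M + 1)) K))
        rw [Ideal.map_bot, bot_sup_eq, bot_sup_eq] at h5
        rw [← h5]
        exact h4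
      have h4 := ih (by omega) M K (lsub K B F) (isHomogeneous_lsub B hF) hsec'
        (fun k : Fin i => Matrix.vecMul (ℓ k.succ) B) (li_param h2 hℓ) hFℓ' t (by omega) P' hP'
        (by
          rw [← hPP', Ideal.mem_comap] at hFP
          exact hFP)
      have h5 := Submodule.mem_map_of_mem (f := push (lsub K B) 1 t) h4
      rw [push_pt (isFib_param (K := K) h1) (by rw [map_one]; exact hP'), hPP',
        Submodule.map_sup, Submodule.map_span, Set.image_singleton,
        push_sect_param h1 h2 h3] at h5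
      exact (sup_le_sup_left (push_ratEq_param h1 h2 h3) _) h5
    by_cases hlP : lform (ℓ 0) ∈ P
    · exact key P hP hFP hlP
    · have h1 := haff (M + 1) (i + 1) (by omega) hi K F hF hsec (ℓ 0) hr t ht P
        (isSub_iff.2 ⟨hP, hlP⟩) hFP
      exact rel_le le_sup_right key h1

end Pool.Agent.W5h86.HC
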