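import Pool.Agent.W5h86.HC.Trans

set_option autoImplicit false

/-!
# Linear substitutions
-/

universe u

namespace Pool.Agent.W5h86.HC

open MvPolynomial

variable {K κ : Type u} [Field K] [Field κ] [Algebra K κ] {N N' N'' : ℕ}

variable (K) in
/-- The linear substitution `x i = ∑ j, B i j * y j`. -/
noncomputable def lsub (B : Matrix (Fin N) (Fin N') κ) :
    MvPolynomial (Fin N) K →ₐ[K] MvPolynomial (Fin N') κ :=
  aeval fun i => ∑ j, C (B i j) * X j

/-- A linear form. -/
noncomputable def lform (c : Fin N → K) : MvPolynomial (Fin N) K := ∑ i, C (c i) * X i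

@[simp]
lemma lsub_X (B : Matrix (Fin N) (Fin N') κ) (i : Fin N) :
    lsub K B (X i) = ∑ j, C (B i j) * X j := by
  unfold lsub
  rw [aeval_X]

@[simp]
lemma lsub_C (B : Matrix (Fin N) (Fin N') κ) (a : K) :
    lsub K B (C a) = C (algebraMap K κ a) := by
  unfold lsub
  rw [aeval_C]
  rfl

lemma isHomogeneous_lform (c : Fin N → K) : IsHomogeneous (lform c) 1 :=
  IsHomogeneous.sum _ _ _ fun i _ => (isHomogeneous_X K i).C_mul _

lemma isHomogeneous_lsub (B : Matrix (Fin N) (Fin N') κ) {F : MvPolynomial (Fin N) K} {d : ℕ}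
    (hF : IsHomogeneous F d) : IsHomogeneous (lsub K B F) d := by
  have h := hF.aeval (S := κ) (n := 1) (fun i => ∑ j, C (B i j) * X j)
    fun i => IsHomogeneous.sum _ _ _ fun j _ => (isHomogeneous_X κ j).C_mul _
  rw [one_mul] at h
  exact h

lemma homogeneousComponent_lsub (B : Matrix (Fin N) (Fin N') κ) (i : ℕ)
    (f : MvPolynomial (Fin N) K) :
    homogeneousComponent i (lsub K B f) = lsub K B (homogeneousComponent i f) := by
  conv_lhs => rw [← sum_homogeneousComponent f]
  rw [map_sum, map_sum]
  have h2 : ∀ j, homogeneousComponent i (lsub K B (homogeneousComponent j f)) =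
      if j = i then lsub K B (homogeneousComponent i f) else 0 := by
    intro j
    rw [homogeneousComponent_of_mem
      (isHomogeneous_lsub B (homogeneousComponent_isHomogeneous j f))]
    by_cases hj : j = i
    · subst hj
      simp
    · rw [if_neg hj, if_neg (fun h => hj h.symm)]
  rw [Finset.sum_congr rfl fun j _ => h2 j, Finset.sum_ite_eq']
  split_ifs with h3
  · rfl
  · rw [homogeneousComponent_eq_zero _ _ (by simpa using h3), map_zero]

lemma aeval_lsub {L : Type u} [Field L] [Algebra K L] [Algebra κ L] [IsScalarTower K κ L]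
    (B : Matrix (Fin N) (Fin N') κ) (f : MvPolynomial (Fin N) K) (b : Fin N' → L) :
    aeval b (lsub K B f) = aeval (fun i => ∑ j, algebraMap κ L (B i j) * b j) f := by
  have h : ((aeval b : MvPolynomial (Fin N') κ →ₐ[κ] L).restrictScalars K).comp (lsub K B) =
      aeval (fun i => ∑ j, algebraMap κ L (B i j) * b j) := by
    apply MvPolynomial.algHom_ext
    intro i
    simp
  exact DFunLike.congr_fun h f

lemma lsub_lsub (A : Matrix (Fin N') (Fin N'') κ) (B : Matrix (Fin N) (Fin N') κ)
    (f : MvPolynomial (Fin N) K) : lsub κ A (lsub K B f) = lsub K (B * A) f := by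
  have h : ((lsub κ A).restrictScalars K).comp (lsub K B) = lsub K (B * A) := by
    apply MvPolynomial.algHom_ext
    intro i
    simp only [AlgHom.comp_apply, AlgHom.restrictScalars_apply, lsub_X, map_sum, map_mul, lsub_C,
      Matrix.mul_apply, Finset.sum_mul, Algebra.algebraMap_self, RingHom.id_apply]
    simp only [Finset.mul_sum]
    rw [Finset.sum_comm]
    refine Finset.sum_congr rfl fun j _ => Finset.sum_congr rfl fun k _ => ?_
    rw [mul_assoc]
  exact DFunLike.congr_fun h f

lemma pderiv_lsub (B : Matrix (Fin N) (Fin N') κ) (f : MvPolynomial (Fin N) K) (j : Fin N') :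
    pderiv j (lsub K B f) = ∑ i, C (B i j) * lsub K B (pderiv i f) := by
  classical
  induction f using MvPolynomial.induction_on with
  | C a => simp
  | add p q hp hq =>
    simp only [map_add, hp, hq, mul_add, Finset.sum_add_distrib]
  | mul_X p k hp =>
    have h1 : pderiv j (∑ j', C (B k j') * X j' : MvPolynomial (Fin N') κ) = C (B k j) := by
      rw [map_sum, Finset.sum_eq_single j]
      · rw [pderiv_C_mul, pderiv_X_self, mul_one]
      · intro j' _ hj'
        rw [pderiv_C_mul, pderiv_X_of_ne hj', mul_zero]
      · simp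
    have h2 : ∀ i, lsub K B (pderiv i (p * X k)) =
        lsub K B (pderiv i p) * (∑ j', C (B k j') * X j') +
          lsub K B p * (if i = k then 1 else 0) := by
      intro i
      rw [pderiv_mul, map_add, map_mul, map_mul, lsub_X]
      congr 2
      by_cases hik : i = k
      · rw [hik, pderiv_X_self, map_one, if_pos rfl]
      · rw [pderiv_X_of_ne (fun h => hik h.symm), map_zero, if_neg hik]
    rw [map_mul, lsub_X, pderiv_mul, hp, h1]
    simp only [h2, mul_add, Finset.sum_add_distrib]
    rw [Finset.sum_mul]
    congr 1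
    · refine Finset.sum_congr rfl fun i _ => ?_
      rw [mul_assoc]
    · rw [Finset.sum_eq_single k]
      · rw [if_pos rfl]
        ring
      · intro i _ hi
        rw [if_neg hi]
        ring
      · simp

lemma lsub_lform (B : Matrix (Fin N) (Fin N') κ) (c : Fin N → K) :
    lsub K B (lform c) = lform (fun j => ∑ i, algebraMap K κ (c i) * B i j) := by
  unfold lform
  simp only [map_sum, map_mul, lsub_C, lsub_X, Finset.mul_sum, Finset.sum_mul]
  rw [Finset.sum_comm]
  refine Finset.sum_congr rfl fun j _ => Finset.sum_congr rfl fun i _ => ?_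
  rw [mul_assoc]

lemma isHomogeneous_pderiv {F : MvPolynomial (Fin N) K} {d : ℕ} (hF : IsHomogeneous F (d + 1))
    (i : Fin N) : IsHomogeneous (pderiv i F) d := by
  intro m hm
  rw [coeff_pderiv] at hm
  have h1 : coeff (m + Finsupp.single i 1) F ≠ 0 := fun h => hm (by rw [h, zero_mul])
  have h2 := hF h1
  rw [map_add, Finsupp.weight_single] at h2
  simp only [Pi.one_apply, smul_eq_mul, mul_one] at h2
  omega

/-- Evaluation of a homogeneous polynomial at a multiple of a point. -/
lemma aeval_smul_point {L : Type u} [Field L] [Algebra K L] {F : MvPolynomial (Fin N) K} {d : ℕ}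
    (hF : IsHomogeneous F d) (c : L) (b : Fin N → L) :
    aeval (fun i => c * b i) F = c ^ d * aeval b F := by
  rw [aeval_def, aeval_def, eval₂_eq, eval₂_eq, Finset.mul_sum]
  refine Finset.sum_congr rfl fun m hm => ?_
  have h1 : m.degree = d := by
    by_contra h
    rw [mem_support_iff] at hm
    exact hm (hF.coeff_eq_zero h)
  simp only [mul_pow, Finset.prod_mul_distrib]
  rw [Finset.prod_pow_eq_pow_sum]
  have h2 : ∑ i ∈ m.support, m i = d := h1
  rw [h2]
  ring

end Pool.Agent.W5h86.HC
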