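import Pool.Agent.W5h86.HC.Spec

set_option autoImplicit false

/-!
# Hypersurfaces with smooth linear sections of given dimension
-/

universe u

namespace Pool.Agent.W5h86.HC

open MvPolynomial

variable {K : Type u} [Field K] {N n p q : ℕ}

/-! ### Invertible matrices with given rows -/

lemma exists_extend_li {k : ℕ} (v : Fin k → Fin n → K) (hv : LinearIndependent K v) :
    ∃ (hk : k ≤ n) (w : Fin n → Fin n → K), LinearIndependent K w ∧
      ∀ i, w (Fin.castLE hk i) = v i := by
  have hk : k ≤ n := by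
    have h1 := hv.fintype_card_le_finrank
    simpa using h1
  obtain ⟨m, rfl⟩ := Nat.exists_eq_add_of_le hk
  refine ⟨hk, ?_⟩
  have key : ∀ j, j ≤ m → ∃ w : Fin (k + j) → Fin (k + m) → K, LinearIndependent K w ∧
      ∀ i, w (Fin.castLE (Nat.le_add_right k j) i) = v i := by
    intro j
    induction j with
    | zero => exact fun _ => ⟨v, hv, fun i => rfl⟩
    | succ j ih =>
      intro hj
      obtain ⟨w, hw, hwv⟩ := ih (by omega)
      obtain ⟨x, hx⟩ := exists_linearIndependent_snoc_of_lt_finrank hw (by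
        rw [Module.finrank_fin_fun]
        omega)
      refine ⟨Fin.snoc (α := fun _ => Fin (k + m) → K) w x, hx, fun i => ?_⟩
      rw [← hwv]
      have h1 : (Fin.castLE (Nat.le_add_right k (j + 1)) i : Fin (k + (j + 1))) =
          Fin.castSucc (Fin.castLE (Nat.le_add_right k j) i) := rfl
      rw [h1, Fin.snoc_castSucc]
  exact key m le_rfl

/-- Invertible matrices with given rows. -/
lemma exists_coord {k : ℕ} (v : Fin k → Fin n → K) (hv : LinearIndependent K v) :
    ∃ (hk : k ≤ n) (g g' : Matrix (Fin n) (Fin n) K), g * g' = 1 ∧ g' * g = 1 ∧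
      ∀ i, g' (Fin.castLE hk i) = v i := by
  obtain ⟨hk, w, hw, hwv⟩ := exists_extend_li v hv
  have h1 : IsUnit (Matrix.of w) := Matrix.linearIndependent_rows_iff_isUnit.1 hw
  obtain ⟨g', hg'⟩ := h1
  refine ⟨hk, (g'⁻¹ : (Matrix (Fin n) (Fin n) K)ˣ), (g' : Matrix (Fin n) (Fin n) K), ?_, ?_, ?_⟩
  · exact g'.inv_mul
  · exact g'.mul_inv
  · intro i
    rw [hg', ← hwv]
    rfl

/-! ### Base change and coordinate changes -/

section base

variable {κ : Type u} [Field κ] [Algebra K κ]

lemma Smooth.baseChange {F : MvPolynomial (Fin N) K} {A : Matrix (Fin N) (Fin n) K}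
    (h : Smooth (lsub K A F)) : Smooth (lsub K (A.map (algebraMap K κ)) F) := by
  rw [smooth_lsub_iff]
  intro L _ _ _ _ b hb h0
  rw [smooth_lsub_self_iff] at h
  have h1 : ∀ i j, algebraMap κ L (A.map (algebraMap K κ) i j) = algebraMap K L (A i j) := by
    intro i j
    rw [Matrix.map_apply, ← IsScalarTower.algebraMap_apply]
  simp only [h1] at h0 ⊢
  exact h L b hb h0

lemma Smooth.coord {G : MvPolynomial (Fin n) K} (h : Smooth G) {g g' : Matrix (Fin n) (Fin n) K}
    (h1 : g * g' = 1) (h2 : g' * g = 1) : Smooth (lsub K g G) := by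
  rw [smooth_lsub_self_iff]
  intro L _ _ b hb h0
  set x : Fin n → L := fun i => ∑ j, algebraMap K L (g i j) * b j with hx
  have hxb : ∀ j, ∑ i, algebraMap K L (g' j i) * x i = b j := by
    intro j
    simp only [hx, Finset.mul_sum]
    rw [Finset.sum_comm]
    have h3 : ∀ l, ∑ i, algebraMap K L (g' j i) * (algebraMap K L (g i l) * b l) =
        algebraMap K L ((g' * g) j l) * b l := by
      intro l
      rw [Matrix.mul_apply, map_sum, Finset.sum_mul]
      refine Finset.sum_congr rfl fun i _ => ?_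
      rw [map_mul]
      ring
    rw [Finset.sum_congr rfl fun l _ => h3 l, h2, Finset.sum_eq_single j]
    · rw [Matrix.one_apply_eq, map_one, one_mul]
    · intro l _ hl
      rw [Matrix.one_apply_ne hl.symm, map_zero, zero_mul]
    · simp
  have hx0 : x ≠ 0 := by
    intro h3
    apply hb
    funext j
    rw [← hxb, h3]
    simp
  obtain ⟨i0, hi0⟩ := h L x hx0 h0
  by_contra hcon
  push Not at hcon
  apply hi0
  have h4 : ∑ j, algebraMap K L (g' j i0) *
      (∑ i, algebraMap K L (g i j) * aeval x (pderiv i G)) = aeval x (pderiv i0 G) := by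
    simp only [Finset.mul_sum]
    rw [Finset.sum_comm]
    have h3 : ∀ i, ∑ j, algebraMap K L (g' j i0) * (algebraMap K L (g i j) *
        aeval x (pderiv i G)) = algebraMap K L ((g * g') i i0) * aeval x (pderiv i G) := by
      intro i
      rw [Matrix.mul_apply, map_sum, Finset.sum_mul]
      refine Finset.sum_congr rfl fun j _ => ?_
      rw [map_mul]
      ring
    rw [Finset.sum_congr rfl fun i _ => h3 i, h1, Finset.sum_eq_single i0]
    · rw [Matrix.one_apply_eq, map_one, one_mul]
    · intro l _ hl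
      rw [Matrix.one_apply_ne hl, map_zero, zero_mul]
    · simp
  rw [← h4]
  exact Finset.sum_eq_zero fun j _ => by rw [hcon j, mul_zero]

end base

/-! ### Bertini -/

lemma hyp_map {R S : Type u} [CommRing R] [CommRing S] (f : R →+* S) (u : Fin p → R) :
    (hyp u).map f = hyp fun j => f (u j) := by
  ext i j
  rw [Matrix.map_apply]
  rcases Fin.eq_zero_or_eq_succ i with h | ⟨i', h⟩
  · rw [h, hyp_zero, hyp_zero]
  · rw [h, hyp_succ, hyp_succ]
    split_ifs
    · exact map_one f
    · exact map_zero f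

/-- A smooth hyperplane section exists if the singular points are algebraic. -/
theorem exists_hyp [CharZero K] {G : MvPolynomial (Fin (p + 1)) K}
    (hsing : ∀ (L : Type u) [Field L] [Algebra K L] (x : Fin (p + 1) → L), aeval x G = 0 →
      (∀ i, aeval x (pderiv i G) = 0) → ∀ i j, x j ≠ 0 → IsAlgebraic K (x i / x j)) :
    ∃ u : Fin p → K, Smooth (lsub K (hyp u) G) := by
  have h := smooth_generic hsing
  rw [← hyp_map] at h
  obtain ⟨u, -, hu⟩ := exists_spec (hyp X) h (one_ne_zero)
  refine ⟨u, ?_⟩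
  have h1 : (hyp X : Matrix (Fin (p + 1)) (Fin p) (MvPolynomial (Fin p) K)).map (aeval u) =
      hyp u := by
    have h2 := hyp_map ((aeval u : MvPolynomial (Fin p) K →ₐ[K] K) :
      MvPolynomial (Fin p) K →+* K) (X : Fin p → MvPolynomial (Fin p) K)
    simp only [RingHom.coe_coe, aeval_X] at h2
    exact h2
  rw [h1] at hu
  exact hu

/-- the matrix of the inclusion of the hyperplane `x 0 = 0` -/
def zin : Matrix (Fin (p + 1)) (Fin p) K := hyp 0

/-- a left inverse of `hyp u` -/
def hinv : Matrix (Fin p) (Fin (p + 1)) K := fun j i => if i = j.succ then 1 else 0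

lemma hinv_mul_hyp (u : Fin p → K) :
    (hinv : Matrix (Fin p) (Fin (p + 1)) K) * hyp u = 1 := by
  ext i j
  rw [Matrix.mul_apply, Finset.sum_eq_single i.succ]
  · simp only [hinv, if_true, hyp_succ, one_mul]
    rfl
  · intro l _ hl
    simp only [hinv, if_neg hl, zero_mul]
  · simp

/-- **Codimension two**: every hyperplane contains a smooth linear section of codimension two. -/
theorem exists_codim_two [CharZero K] {G : MvPolynomial (Fin (p + 2)) K} {d : ℕ}
    (hG : IsHomogeneous G (d + 2)) (hs : Smooth G) :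
    ∃ C : Matrix (Fin (p + 2)) (Fin p) K, (∀ j, C 0 j = 0) ∧
      (∃ C' : Matrix (Fin p) (Fin (p + 2)) K, C' * C = 1) ∧ Smooth (lsub K C G) := by
  obtain ⟨u, hu⟩ := exists_hyp (G := lsub K (zin : Matrix (Fin (p + 2)) (Fin (p + 1)) K) G) (by
    intro L _ _ x h0 h1 i j hj
    let y : Fin (p + 2) → L := Fin.cons 0 x
    have hy : (fun i => ∑ j, algebraMap K L ((zin : Matrix (Fin (p + 2)) (Fin (p + 1)) K) i j) *
        x j) = y := by
      funext i
      rcases Fin.eq_zero_or_eq_succ i with h | ⟨i', h⟩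
      · rw [h]
        simp [zin, y]
      · rw [h]
        simp only [zin, hyp_succ, y, Fin.cons_succ]
        rw [Finset.sum_eq_single i']
        · simp
        · intro l _ hl
          simp [hl.symm]
        · simp
    rw [aeval_lsub, hy] at h0
    have h2 : ∀ i : Fin (p + 1), aeval y (pderiv i.succ G) = 0 := by
      intro i
      have h3 := h1 i
      rw [pderiv_lsub, map_sum, Fin.sum_univ_succ] at h3
      simp only [map_mul, aeval_C, aeval_lsub, hy] at h3
      simp only [zin, hyp_zero, hyp_succ, Pi.zero_apply, map_zero, zero_mul, zero_add] at h3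
      rw [Finset.sum_eq_single i] at h3
      · simpa using h3
      · intro l _ hl
        simp [hl]
      · simp
    have h3 := isAlgebraic_of_sing hG hs h0 h2 (i := i.succ) (j := j.succ) hj
    exact h3)
  rw [lsub_lsub] at hu
  refine ⟨zin * hyp u, ?_, ⟨(hinv : Matrix (Fin p) (Fin (p + 1)) K) *
    (hinv : Matrix (Fin (p + 1)) (Fin (p + 2)) K), ?_⟩, hu⟩
  · intro j
    rw [Matrix.mul_apply]
    refine Finset.sum_eq_zero fun i _ => ?_
    simp [zin]
  · have h1 : (hinv : Matrix (Fin (p + 1)) (Fin (p + 2)) K) *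
        (zin : Matrix (Fin (p + 2)) (Fin (p + 1)) K) = 1 := hinv_mul_hyp 0
    rw [Matrix.mul_assoc, ← Matrix.mul_assoc _ zin (hyp u), h1, Matrix.one_mul, hinv_mul_hyp]

/-- The hypersurface `F = 0` has a smooth linear section by a linear subspace with `n` homogeneous
coordinates (so of dimension `n - 2`). -/
def HasSec (n : ℕ) (F : MvPolynomial (Fin N) K) : Prop :=
  ∃ (A : Matrix (Fin N) (Fin n) K) (A' : Matrix (Fin n) (Fin N) K), A' * A = 1 ∧
    Smooth (lsub K A F)

lemma smooth_of_hasSec {F : MvPolynomial (Fin N) K} (h : HasSec N F) : Smooth F := by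
  obtain ⟨A, A', h1, h2⟩ := h
  have h1' : A * A' = 1 := mul_eq_one_comm.1 h1
  have h3 := h2.coord h1 h1'
  rw [lsub_lsub, h1'] at h3
  have h4 : lsub K (1 : Matrix (Fin N) (Fin N) K) = AlgHom.id K _ := by
    apply MvPolynomial.algHom_ext
    intro i
    rw [lsub_X, Finset.sum_eq_single i]
    · simp
    · intro j _ hj
      simp [Matrix.one_apply_ne hj.symm]
    · simp
  rw [h4] at h3
  exact h3

/-- Smooth hypersurfaces have smooth linear sections of all dimensions. -/
lemma HasSec.pred [CharZero K] {F : MvPolynomial (Fin N) K} (h : HasSec (n + 1) F) :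
    HasSec n F := by
  obtain ⟨A, A', h1, h2⟩ := h
  obtain ⟨u, hu⟩ := exists_hyp (G := lsub K A F) (by
    intro L _ _ x h0 h3 i j hj
    obtain ⟨i, hi⟩ := h2 L x (fun h => hj (congrFun h j)) h0
    exact absurd (h3 i) hi)
  rw [lsub_lsub] at hu
  refine ⟨A * hyp u, (hinv : Matrix (Fin n) (Fin (n + 1)) K) * A', ?_, hu⟩
  rw [Matrix.mul_assoc, ← Matrix.mul_assoc A', h1, Matrix.one_mul, hinv_mul_hyp]

lemma lsub_one : lsub K (1 : Matrix (Fin N) (Fin N) K) = AlgHom.id K _ := by
  apply MvPolynomial.algHom_ext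
  intro i
  rw [lsub_X, Finset.sum_eq_single i]
  · simp
  · intro j _ hj
    simp [Matrix.one_apply_ne hj.symm]
  · simp

lemma hasSec_self {F : MvPolynomial (Fin N) K} (h : Smooth F) : HasSec N F := by
  refine ⟨1, 1, Matrix.one_mul 1, ?_⟩
  rw [lsub_one]
  exact h

lemma hasSec_of_smooth [CharZero K] {F : MvPolynomial (Fin N) K} (h : Smooth F) (hn : n ≤ N) :
    HasSec n F := by
  have key : ∀ m n, HasSec (n + m) F → HasSec n F := by
    intro m
    induction m with
    | zero => exact fun n h => h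
    | succ m ih => exact fun n h => ih n h.pred
  obtain ⟨m, hm⟩ := Nat.exists_eq_add_of_le hn
  apply key m n
  rw [← hm]
  exact hasSec_self h

/-- **Arbitrary hyperplane sections** of hypersurfaces with smooth linear sections. -/
theorem HasSec.hyperplane {κ : Type u} [Field κ] [Algebra K κ] [CharZero κ]
    {F : MvPolynomial (Fin N) K} {d : ℕ} (hF : IsHomogeneous F (d + 2)) (h : HasSec (p + 2) F)
    {N' : ℕ} (B : Matrix (Fin N) (Fin N') κ) (r : Fin N → κ)
    (hB : ∀ w : Fin N → κ, ∑ i, r i * w i = 0 → ∃ v : Fin N' → κ, B.mulVec v = w) :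
    HasSec p (lsub K B F) := by
  classical
  obtain ⟨A, A', h1, h2⟩ := h
  set Aκ : Matrix (Fin N) (Fin (p + 2)) κ := A.map (algebraMap K κ) with hAκ
  have h3 : Smooth (lsub K Aκ F) := h2.baseChange
  have h1κ : A'.map (algebraMap K κ) * Aκ = 1 := by
    rw [hAκ, ← Matrix.map_mul, h1]
    simp
  -- the functional on the section
  let r0 : Fin (p + 2) → κ := fun j => ∑ i, r i * Aκ i j
  obtain ⟨r1, hr1, hr01⟩ : ∃ r1 : Fin (p + 2) → κ, r1 ≠ 0 ∧ (r0 = 0 ∨ r1 = r0) := by
    by_cases h4 : r0 = 0
    · exact ⟨Pi.single 0 1, by simp, Or.inl h4⟩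
    · exact ⟨r0, h4, Or.inr rfl⟩
  obtain ⟨hk, g, g', hg1, hg2, hg3⟩ := exists_coord (fun _ : Fin 1 => r1)
    (by rw [linearIndependent_unique_iff]; exact hr1)
  obtain ⟨C, hC0, ⟨C', hC'⟩, hC⟩ := exists_codim_two
    (isHomogeneous_lsub g (isHomogeneous_lsub Aκ hF)) (h3.coord hg1 hg2)
  rw [lsub_lsub, lsub_lsub] at hC
  have hrg : ∀ j, ∑ i, r1 i * g i j = if j = 0 then 1 else 0 := by
    intro j
    have h4 := congrFun (congrFun hg2 0) j
    rw [Matrix.mul_apply] at h4
    have h5 : g' 0 = r1 := hg3 0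
    rw [h5] at h4
    rw [h4, Matrix.one_apply]
    simp only [eq_comm]
  have hw : ∀ j, ∑ i, r i * (Aκ * (g * C)) i j = 0 := by
    intro j
    have h4 : ∑ i, r i * (Aκ * (g * C)) i j = ∑ l, r0 l * (g * C) l j := by
      have e1 : ∀ i, (Aκ * (g * C)) i j = ∑ l, Aκ i l * (g * C) l j := fun i => Matrix.mul_apply
      simp only [e1, Finset.mul_sum, r0, Finset.sum_mul]
      rw [Finset.sum_comm]
      refine Finset.sum_congr rfl fun l _ => Finset.sum_congr rfl fun i _ => ?_
      ring
    rw [h4]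
    rcases hr01 with h5 | h5
    · rw [h5]
      simp
    · rw [← h5]
      have h6 : ∑ l, r1 l * (g * C) l j = ∑ m, (∑ l, r1 l * g l m) * C m j := by
        have e1 : ∀ l, (g * C) l j = ∑ m, g l m * C m j := fun l => Matrix.mul_apply
        simp only [e1, Finset.mul_sum, Finset.sum_mul]
        rw [Finset.sum_comm]
        refine Finset.sum_congr rfl fun l _ => Finset.sum_congr rfl fun i _ => ?_
        ring
      rw [h6]
      refine Finset.sum_eq_zero fun m _ => ?_
      rw [hrg]
      split_ifs with h7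
      · rw [h7, hC0, mul_zero]
      · rw [zero_mul]
  choose v hv using fun j => hB (fun i => (Aκ * (g * C)) i j) (hw j)
  have hBv : B * Matrix.of (fun i j => v j i) = Aκ * (g * C) := by
    ext i j
    rw [Matrix.mul_apply]
    exact congrFun (hv j) i
  refine ⟨Matrix.of fun i j => v j i, (C' * (g' * A'.map (algebraMap K κ))) * B, ?_, ?_⟩
  · rw [Matrix.mul_assoc, hBv]
    simp only [Matrix.mul_assoc]
    rw [← Matrix.mul_assoc (A'.map (algebraMap K κ)), h1κ, Matrix.one_mul,
      ← Matrix.mul_assoc g', hg2, Matrix.one_mul, hC']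
  · rw [lsub_lsub, hBv]
    exact hC

/-- Perturbation of a section. -/
lemma HasSec.exists_move [CharZero K] {F : MvPolynomial (Fin N) K} {d : ℕ}
    (hF : IsHomogeneous F (d + 1)) (h : HasSec (n + 1) F) {r : Fin N → K} (hr : r ≠ 0) :
    ∃ (A : Matrix (Fin N) (Fin (n + 1)) K) (A' : Matrix (Fin (n + 1)) (Fin N) K), A' * A = 1 ∧
      Smooth (lsub K A F) ∧ ∃ j, ∑ i, r i * A i j ≠ 0 := by
  classical
  obtain ⟨A, A', h1, h2⟩ := h
  by_cases h3 : ∃ j, ∑ i, r i * A i j ≠ 0
  · exact ⟨A, A', h1, h2, h3⟩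
  push Not at h3
  obtain ⟨i0, hi0⟩ := Function.ne_iff.1 hr
  have hri : r i0 ≠ 0 := hi0
  let v : Fin N → K := Pi.single i0 (r i0)⁻¹
  have hv : ∑ i, r i * v i = 1 := by
    rw [Finset.sum_eq_single i0]
    · simp only [v, Pi.single_eq_same]
      exact mul_inv_cancel₀ hri
    · intro i _ hi
      simp [v, Pi.single_eq_of_ne hi]
    · simp
  let E : Matrix (Fin N) (Fin (n + 1)) K := fun i j => if j = 0 then v i else 0
  let U := FractionRing (MvPolynomial (Fin 1) K)
  let At : Matrix (Fin N) (Fin (n + 1)) (MvPolynomial (Fin 1) K) :=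
    fun i j => C (A i j) + X 0 * C (E i j)
  have hE : ∀ i j, E i j = if j = 0 then v i else 0 := fun i j => rfl
  have hAt' : ∀ i j, At i j = C (A i j) + X 0 * C (E i j) := fun i j => rfl
  have hθ : Transcendental K (algebraMap (MvPolynomial (Fin 1) K) U (X 0)) := by
    rw [transcendental_algebraMap_iff (IsFractionRing.injective (MvPolynomial (Fin 1) K) U)]
    exact MvPolynomial.transcendental_X K 0
  have h4 := smooth_deform (κ := U) hF A E h2 hθ (At.map (algebraMap (MvPolynomial (Fin 1) K) U))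
    (by
      intro i j
      rw [Matrix.map_apply, hAt', map_add, map_mul]
      rw [IsScalarTower.algebraMap_apply K (MvPolynomial (Fin 1) K) U,
        IsScalarTower.algebraMap_apply K (MvPolynomial (Fin 1) K) U]
      rfl)
  obtain ⟨u, hu0, hu⟩ := exists_spec At h4 (h := X 0) (X_ne_zero 0)
  rw [aeval_X] at hu0
  set ε := u 0 with hε
  have hAt : At.map (aeval u : MvPolynomial (Fin 1) K →ₐ[K] K) = A + ε • E := by
    ext i j
    rw [Matrix.map_apply, hAt', map_add, map_mul, aeval_X, Matrix.add_apply,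
      Matrix.smul_apply, smul_eq_mul, ← hε]
    simp
  rw [hAt] at hu
  have hrA : ∀ j, ∑ i, r i * (A + ε • E) i j = if j = 0 then ε else 0 := by
    intro j
    have h5 : ∀ i, r i * (A + ε • E) i j = r i * A i j + ε * (if j = 0 then r i * v i else 0) := by
      intro i
      rw [Matrix.add_apply, Matrix.smul_apply, smul_eq_mul, hE]
      split_ifs <;> ring
    rw [Finset.sum_congr rfl fun i _ => h5 i, Finset.sum_add_distrib, h3, zero_add,
      ← Finset.mul_sum]
    split_ifs with h6
    · rw [hv, mul_one]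
    · simp
  refine ⟨A + ε • E, A' - Matrix.vecMulVec (A'.mulVec v) r, ?_, hu, 0, ?_⟩
  · ext i j
    have h5 : (Matrix.vecMulVec (A'.mulVec v) r * (A + ε • E)) i j =
        A'.mulVec v i * (if j = 0 then ε else 0) := by
      rw [Matrix.mul_apply, ← hrA, Finset.mul_sum]
      refine Finset.sum_congr rfl fun l _ => ?_
      rw [Matrix.vecMulVec_apply, mul_assoc]
    have h6 : (A' * E) i j = if j = 0 then A'.mulVec v i else 0 := by
      rw [Matrix.mul_apply]
      split_ifs with h7
      · simp only [hE, if_pos h7]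
        rfl
      · simp [hE, if_neg h7]
    rw [Matrix.sub_mul, Matrix.sub_apply, h5, Matrix.mul_add, h1, Matrix.mul_smul,
      Matrix.add_apply, Matrix.smul_apply, h6, smul_eq_mul]
    split_ifs <;> ring
  · rw [hrA, if_pos rfl]
    exact hu0

/-- Good coordinates for a pencil of hyperplane sections. -/
theorem HasSec.exists_good_coord [CharZero K] {F : MvPolynomial (Fin (N + 2)) K} {d : ℕ}
    (hF : IsHomogeneous F (d + 1)) (h : HasSec (n + 1) F) (hn : n < N + 1)
    {r : Fin (N + 2) → K} (hr : r ≠ 0) :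
    ∃ (g g' : Matrix (Fin (N + 2)) (Fin (N + 2)) K), g * g' = 1 ∧ g' * g = 1 ∧ g' 0 = r ∧
      ∃ (A : Matrix (Fin (N + 2)) (Fin (n + 1)) K) (A' : Matrix (Fin (n + 1)) (Fin (N + 2)) K),
        A' * A = 1 ∧ A 1 = 0 ∧ Smooth (lsub K A (lsub K g F)) := by
  obtain ⟨A, A', h1, h2, j0, hj0⟩ := h.exists_move hF hr
  obtain ⟨r1, hr1, hr1A⟩ : ∃ r1 : Fin (N + 2) → K, r1 ≠ 0 ∧ A.vecMul r1 = 0 := by
    have h3 : ¬ Function.Injective (A.vecMulLinear) := by
      intro h4
      have h5 := LinearMap.finrank_le_finrank_of_injective h4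
      rw [Module.finrank_fin_fun, Module.finrank_fin_fun] at h5
      omega
    rw [injective_iff_map_eq_zero] at h3
    push Not at h3
    obtain ⟨r1, h4, h5⟩ := h3
    exact ⟨r1, h5, h4⟩
  have hli : LinearIndependent K ![r, r1] := by
    rw [LinearIndependent.pair_iff]
    intro s t hst
    have h3 := congrArg (fun w => A.vecMul w) hst
    simp only [Matrix.add_vecMul, Matrix.smul_vecMul, hr1A, smul_zero, add_zero,
      Matrix.zero_vecMul] at h3
    have h4 : s = 0 := by
      have h5 := congrFun h3 j0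
      simp only [Pi.smul_apply, smul_eq_mul, Pi.zero_apply] at h5
      exact (mul_eq_zero.1 h5).resolve_right hj0
    refine ⟨h4, ?_⟩
    rw [h4, zero_smul, zero_add, smul_eq_zero] at hst
    exact hst.resolve_right hr1
  obtain ⟨hk, g, g', hg1, hg2, hg3⟩ := exists_coord _ hli
  have hg0 : g' 0 = r := hg3 0
  have hg1' : g' 1 = r1 := hg3 1
  refine ⟨g, g', hg1, hg2, hg0, g' * A, A' * g, ?_, ?_, ?_⟩
  · rw [Matrix.mul_assoc, ← Matrix.mul_assoc g, hg1, Matrix.one_mul, h1]
  · funext j
    have h5 := congrFun hr1A j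
    rw [← hg1'] at h5
    exact h5
  · rw [lsub_lsub, ← Matrix.mul_assoc, hg1, Matrix.one_mul]
    exact h2

/-- The matrix of the hyperplane `x 1 = θ * x 0`. -/
def fibMat {κ : Type u} [Field κ] (θ : κ) : Matrix (Fin (N + 2)) (Fin (N + 1)) κ :=
  fun i j => Fin.cases (if j = 0 then 1 else 0)
    (fun i' => Fin.cases (if j = 0 then θ else 0) (fun i'' => if j = i''.succ then 1 else 0) i') i

section fibMat

variable {κ : Type u} [Field κ] (θ : κ)

@[simp] lemma fibMat_zero (j : Fin (N + 1)) : fibMat θ 0 j = if j = 0 then 1 else 0 := rfl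

@[simp] lemma fibMat_one (j : Fin (N + 1)) :
    fibMat (N := N) θ 1 j = if j = 0 then θ else 0 := rfl

@[simp] lemma fibMat_succ (i : Fin N) (j : Fin (N + 1)) :
    fibMat θ i.succ.succ j = if j = i.succ then 1 else 0 := rfl

lemma fin_cases_two (i : Fin (N + 2)) : i = 0 ∨ i = 1 ∨ ∃ i' : Fin N, i = i'.succ.succ := by
  rcases Fin.eq_zero_or_eq_succ i with h | ⟨i', h⟩
  · exact Or.inl h
  · rcases Fin.eq_zero_or_eq_succ i' with h' | ⟨i'', h'⟩
    · right; left
      rw [h, h']
      rfl
    · right; right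
      exact ⟨i'', by rw [h, h']⟩

/-- the image of the matrix is the hyperplane -/
lemma fibMat_surj (w : Fin (N + 2) → κ)
    (hw : ∑ i, (fun i => if i = 0 then θ else if i = 1 then -1 else 0 : Fin (N + 2) → κ) i * w i
      = 0) :
    ∃ v : Fin (N + 1) → κ, (fibMat θ).mulVec v = w := by
  have hw' : w 1 = θ * w 0 := by
    rw [Fin.sum_univ_succ, Fin.sum_univ_succ] at hw
    simp only [if_true, Fin.succ_ne_zero, if_false, Fin.succ_zero_eq_one] at hw
    rw [Finset.sum_eq_zero] at hw
    · rw [if_neg (one_ne_zero)] at hw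
      linear_combination -hw
    · intro i _
      have h1 : (i.succ.succ : Fin (N + 2)) ≠ 1 := by
        intro h
        exact Fin.succ_ne_zero i (Fin.succ_injective _ (h.trans rfl))
      rw [if_neg h1, zero_mul]
  refine ⟨Fin.cons (w 0) fun i => w i.succ.succ, ?_⟩
  funext i
  rw [Matrix.mulVec, dotProduct]
  rcases fin_cases_two i with h | h | ⟨i', h⟩
  · rw [h, Finset.sum_eq_single 0]
    · simp
    · intro j _ hj
      simp [hj]
    · simp
  · rw [h, Finset.sum_eq_single 0]
    · simp [hw']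
    · intro j _ hj
      simp [hj]
    · simp
  · rw [h, Finset.sum_eq_single i'.succ]
    · simp
    · intro j _ hj
      simp [hj]
    · simp

end fibMat

/-- **The generic member of the pencil.** -/
theorem hasSec_generic {κ : Type u} [Field κ] [Algebra K κ] {F : MvPolynomial (Fin (N + 2)) K}
    {d : ℕ} (hF : IsHomogeneous F (d + 1)) {θ : κ} (hθ : Transcendental K θ)
    {A : Matrix (Fin (N + 2)) (Fin n) K} {A' : Matrix (Fin n) (Fin (N + 2)) K} (h1 : A' * A = 1)
    (h2 : A 1 = 0) (h3 : Smooth (lsub K A F)) : HasSec n (lsub K (fibMat θ) F) := by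
  let E : Matrix (Fin (N + 2)) (Fin n) K := fun i j => if i = 1 then A 0 j else 0
  let D : Matrix (Fin (N + 1)) (Fin n) κ :=
    fun i j => algebraMap K κ (Fin.cases (A 0 j) (fun i' => A i'.succ.succ j) i)
  let D' : Matrix (Fin n) (Fin (N + 1)) κ :=
    fun j i => algebraMap K κ (Fin.cases (A' j 0) (fun i' => A' j i'.succ.succ) i)
  have hD0 : ∀ j, D 0 j = algebraMap K κ (A 0 j) := fun j => rfl
  have hDs : ∀ (i : Fin N) j, D i.succ j = algebraMap K κ (A i.succ.succ j) := fun i j => rfl
  have hD'0 : ∀ j, D' j 0 = algebraMap K κ (A' j 0) := fun j => rfl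
  have hD's : ∀ (i : Fin N) j, D' j i.succ = algebraMap K κ (A' j i.succ.succ) := fun i j => rfl
  have hmul : ∀ i j, (fibMat (N := N) θ * D : Matrix (Fin (N + 2)) (Fin n) κ) i j = algebraMap K κ (A i j) + θ * algebraMap K κ (E i j) := by
    intro i j
    rw [Matrix.mul_apply]
    rcases fin_cases_two i with h | h | ⟨i', h⟩
    · rw [h, Finset.sum_eq_single 0]
      · simp [E, hD0]
      · intro j _ hj
        simp [hj]
      · simp
    · rw [h, Finset.sum_eq_single 0]
      · simp [E, hD0, h2]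
      · intro j _ hj
        simp [hj]
      · simp
    · have h4 : (i'.succ.succ : Fin (N + 2)) ≠ 1 := by
        intro h
        exact Fin.succ_ne_zero i' (Fin.succ_injective _ (h.trans rfl))
      rw [h, Finset.sum_eq_single i'.succ]
      · simp [E, hDs, h4]
      · intro j _ hj
        simp [hj]
      · simp
  refine ⟨D, D', ?_, ?_⟩
  · ext i j
    rw [Matrix.mul_apply, Fin.sum_univ_succ, hD'0, hD0]
    simp only [hD's, hDs, ← map_mul]
    rw [← map_sum, ← map_add]
    have h4 := congrFun (congrFun h1 i) j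
    rw [Matrix.mul_apply, Fin.sum_univ_succ, Fin.sum_univ_succ] at h4
    have h5 : A (Fin.succ 0) j = 0 := congrFun h2 j
    rw [h5, mul_zero, zero_add] at h4
    rw [h4, Matrix.one_apply, Matrix.one_apply]
    split_ifs
    · exact map_one _
    · exact map_zero _
  · rw [lsub_lsub]
    exact smooth_deform hF A E h3 hθ _ hmul

/-- The closed members of the pencil. -/
theorem HasSec.closed {κ : Type u} [Field κ] [Algebra K κ] [CharZero κ]
    {F : MvPolynomial (Fin (N + 2)) K} {d : ℕ} (hF : IsHomogeneous F (d + 2))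
    (h : HasSec (p + 2) F) (θ : κ) : HasSec p (lsub K (fibMat θ) F) :=
  h.hyperplane hF (fibMat θ) _ (fibMat_surj θ)

end Pool.Agent.W5h86.HC
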